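import Mathlib

open MeasureTheory Set Filter Topology

namespace Pool.Agent.Results.MP_beb0a8_an.PipeWandering

/-- Euclidean three-space. -/
abbrev E3 := EuclideanSpace ℝ (Fin 3)

/-- The fluid domain `M`: the infinite straight circular pipe of radius one around the `x 2` axis,
an open connected subset of `ℝ³` with smooth boundary `x 0 ^ 2 + x 1 ^ 2 = 1`. -/
def Pipe : Set E3 := {x | x 0 ^ 2 + x 1 ^ 2 < 1}

/-- The standard basis vectors; `e 2` is the direction of the pipe. -/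
noncomputable def e (i : Fin 3) : E3 := EuclideanSpace.single i 1

/-- The divergence of a vector field. -/
noncomputable def divergence (v : E3 → E3) (x : E3) : ℝ := ∑ i, fderiv ℝ v x (e i) i

/-- Tangency to the wall: at every boundary point `b`, whose outer unit normal is `(b 0, b 1, 0)`,
the normal component of `u` tends to `0` as the point is approached from inside the pipe. -/
def Impermeable (u : E3 → E3) : Prop :=
  ∀ b : E3, b 0 ^ 2 + b 1 ^ 2 = 1 →
    Tendsto (fun x => b 0 * u x 0 + b 1 * u x 1) (𝓝[Pipe] b) (𝓝 0)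

/-- `HolderLE k m α w C`: in the pipe `w` is of class `C^k`, and its weighted `C^{k,α}` norm is at
most `C`: all derivatives of order `j ≤ k` are bounded by `C (1 + x₂²)^(-m)`, and the `k`-th
derivative satisfies the (equally weighted) Hölder condition with exponent `α`. -/
structure HolderLE (k m : ℕ) (α : ℝ) (w : E3 → E3) (C : ℝ) : Prop where
  smooth : ContDiffOn ℝ k w Pipe
  bound : ∀ j ≤ k, ∀ x ∈ Pipe, (1 + x 2 ^ 2) ^ m * ‖iteratedFDeriv ℝ j w x‖ ≤ C
  holder : ∀ x ∈ Pipe, ∀ y ∈ Pipe, dist x y ≤ 1 →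
    (1 + x 2 ^ 2) ^ m * ‖iteratedFDeriv ℝ k w x - iteratedFDeriv ℝ k w y‖ ≤ C * dist x y ^ α

/-- The phase space `X`: divergence-free velocity fields, tangent to the wall, of the form
`V e₂ + w` with a constant `V` (any flux through the pipe is allowed) and `w` of finite weighted
`C^{k,α}` norm. Its norm is `|V|` plus the weighted `C^{k,α}` norm of `w`. -/
def PhaseSpace (k m : ℕ) (α : ℝ) : Set (E3 → E3) :=
  {u | (∃ V C : ℝ, HolderLE k m α (fun x => u x - V • e 2) C) ∧
    (∀ x ∈ Pipe, divergence u x = 0) ∧ Impermeable u}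

/-- The open ball of radius `ε` around `u₀` in the norm of the phase space `X`. -/
def Ball (k m : ℕ) (α : ℝ) (u₀ : E3 → E3) (ε : ℝ) : Set (E3 → E3) :=
  {u ∈ PhaseSpace k m α | ∃ V C : ℝ, |V| + C < ε ∧ HolderLE k m α (fun x => u x - u₀ x - V • e 2) C}

/-- `v` is a solution of the incompressible Euler equations in the pipe on the time interval
`[0, τ]`, with pressure `p`: it stays in `X`, bounded in the norm of `X`, with constant flux, is
divergence free and tangent to the wall, the pressure gradient is bounded, and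
`∂ₜ v = - (v · ∇) v - ∇ p` holds at every time and every point. -/
structure IsSolution (k m : ℕ) (α τ : ℝ) (v : ℝ → E3 → E3) (p : ℝ → E3 → ℝ) : Prop where
  regular : ∃ V C : ℝ, ∀ t ∈ Icc 0 τ, HolderLE k m α (fun x => v t x - V • e 2) C
  div_free : ∀ t ∈ Icc 0 τ, ∀ x ∈ Pipe, divergence (v t) x = 0
  tangent : ∀ t ∈ Icc 0 τ, Impermeable (v t)
  pressure : ∀ t ∈ Icc 0 τ, ∀ x ∈ Pipe, DifferentiableAt ℝ (p t) x
  pressure_le : ∃ C : ℝ, ∀ t ∈ Icc 0 τ, ∀ x ∈ Pipe, ‖gradient (p t) x‖ ≤ C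
  euler : ∀ t ∈ Icc 0 τ, ∀ x ∈ Pipe,
    HasDerivWithinAt (fun s => v s x) (-(fderiv ℝ (v t) x (v t x)) - gradient (p t) x) (Icc 0 τ) t

/-- `S_t(U)`: the time-`t` values of the solutions with initial datum in `U` that exist on `[0, t]`. -/
def timeImage (k m : ℕ) (α t : ℝ) (U : Set (E3 → E3)) : Set (E3 → E3) :=
  {u | ∃ v p, IsSolution k m α t v p ∧ v 0 ∈ U ∧ v t = u}

/-- `u₀` is wandering: for a neighbourhood `U` of `u₀` in `X` and a time `T > 0`,
`S_t(U) ∩ U = ∅` for all `t ≥ T`. -/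
def IsWandering (k m : ℕ) (α : ℝ) (u₀ : E3 → E3) : Prop :=
  ∃ ε > 0, ∃ T > 0, ∀ t ≥ T, timeImage k m α t (Ball k m α u₀ ε) ∩ Ball k m α u₀ ε = ∅

/-! ### Preliminaries: the pipe, weights, a divergence theorem -/

theorem isOpen_pipe : IsOpen Pipe := by
  unfold Pipe
  exact isOpen_lt (by fun_prop) (by fun_prop)

theorem measurable_pipe : MeasurableSet Pipe := isOpen_pipe.measurableSet

/-- basic integrable weight -/
noncomputable def D (x : E3) : ℝ := ((1 + x 2 ^ 2) ^ 2)⁻¹

theorem D_pos (x : E3) : 0 < D x := by unfold D; positivity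

theorem D_le_one (x : E3) : D x ≤ 1 := by
  unfold D
  apply inv_le_one_of_one_le₀
  nlinarith [sq_nonneg (x 2), sq_nonneg (x 2 ^ 2)]

theorem continuous_D : Continuous D := by
  unfold D
  refine Continuous.inv₀ (by fun_prop) ?_
  intro x; positivity

theorem norm_sq_eq (x : E3) : ‖x‖ ^ 2 = x 0 ^ 2 + x 1 ^ 2 + x 2 ^ 2 := by
  rw [EuclideanSpace.norm_sq_eq, Fin.sum_univ_three]
  simp [sq_abs]

theorem norm_le_of_pipe {x : E3} (hx : x ∈ Pipe) : ‖x‖ ^ 2 ≤ 1 + x 2 ^ 2 := by
  rw [norm_sq_eq]; unfold Pipe at hx; simp only [Set.mem_ofPred_eq] at hx; linarith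

theorem D_le_K {x : E3} (hx : x ∈ Pipe) : D x ≤ 16 * (1 + ‖x‖) ^ (-(4:ℝ)) := by
  have h1 := norm_le_of_pipe hx
  have h2 : (1 + ‖x‖) ^ 2 ≤ 4 * (1 + x 2 ^ 2) := by nlinarith [sq_nonneg (1 - ‖x‖)]
  have h3 : (1 + ‖x‖) ^ 4 ≤ 16 * (1 + x 2 ^ 2) ^ 2 := by
    calc (1 + ‖x‖) ^ 4 = ((1 + ‖x‖) ^ 2) ^ 2 := by ring
      _ ≤ (4 * (1 + x 2 ^ 2)) ^ 2 := by gcongr
      _ = _ := by ring
  have h4 : (1 + ‖x‖) ^ (-(4:ℝ)) = ((1 + ‖x‖) ^ 4)⁻¹ := by
    rw [Real.rpow_neg (by positivity)]
    norm_cast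
  rw [h4]
  unfold D
  rw [← div_eq_mul_inv, inv_eq_one_div, div_le_div_iff₀ (by positivity) (by positivity)]
  linarith

theorem integrableOn_D : IntegrableOn D Pipe := by
  have hK : Integrable (fun x : E3 => 16 * (1 + ‖x‖) ^ (-(4:ℝ))) := by
    apply Integrable.const_mul
    apply integrable_one_add_norm
    simp
    norm_num
  refine Integrable.mono' hK.integrableOn continuous_D.aestronglyMeasurable ?_
  refine (ae_restrict_iff' measurable_pipe).2 (ae_of_all _ fun x hx => ?_)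
  rw [Real.norm_of_nonneg (D_pos x).le]
  exact D_le_K hx

/-- the cut-off profile -/
noncomputable def phi (s : ℝ) : ℝ := (max s 0) ^ 2 / (1 + (max s 0) ^ 2)

noncomputable def phi' (s : ℝ) : ℝ := 2 * (max s 0) / (1 + (max s 0) ^ 2) ^ 2

theorem hasDerivAt_phi (s : ℝ) : HasDerivAt phi (phi' s) s := by
  rcases lt_trichotomy s 0 with h | h | h
  · have h1 : phi' s = 0 := by simp [phi', max_eq_right h.le]
    rw [h1]
    refine (hasDerivAt_const s (0:ℝ)).congr_of_eventuallyEq ?_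
    filter_upwards [gt_mem_nhds h] with y hy
    simp [phi, max_eq_right (le_of_lt hy)]
  · subst h
    have h1 : phi' 0 = 0 := by simp [phi']
    rw [h1]
    have : HasFDerivAt phi (0 : ℝ →L[ℝ] ℝ) 0 := by
      apply Asymptotics.IsBigO.hasFDerivAt (n := 2) _ (by norm_num)
      apply Asymptotics.IsBigO.of_bound 1
      refine Eventually.of_forall fun y => ?_
      simp only [phi, sub_zero, Real.norm_eq_abs, one_mul]
      rw [abs_of_nonneg (by positivity), abs_of_nonneg (by positivity)]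
      have h2 : (max y 0) ^ 2 ≤ |y| ^ 2 := by
        have : max y 0 ≤ |y| := max_le (le_abs_self y) (abs_nonneg y)
        gcongr
      calc (max y 0) ^ 2 / (1 + (max y 0) ^ 2) ≤ (max y 0) ^ 2 / 1 := by
            gcongr
            nlinarith [sq_nonneg (max y 0)]
        _ ≤ _ := by simpa using h2
    simpa using this.hasDerivAt
  · have h1 : phi' s = 2 * s / (1 + s ^ 2) ^ 2 := by simp [phi', max_eq_left h.le]
    rw [h1]
    have h2 : HasDerivAt (fun y : ℝ => y ^ 2 / (1 + y ^ 2)) (2 * s / (1 + s ^ 2) ^ 2) s := by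
      have h3 : HasDerivAt (fun y : ℝ => y ^ 2) (2 * s) s := by simpa using hasDerivAt_pow 2 s
      have h4 := h3.div (h3.const_add 1) (by positivity)
      refine HasDerivAt.congr_deriv (f := fun y : ℝ => y ^ 2 / (1 + y ^ 2)) h4 ?_
      congr 1
      ring
    refine h2.congr_of_eventuallyEq ?_
    filter_upwards [lt_mem_nhds h] with y hy
    simp [phi, max_eq_left (le_of_lt hy)]

theorem phi_nonneg (s : ℝ) : 0 ≤ phi s := by unfold phi; positivity
theorem phi_le_one (s : ℝ) : phi s ≤ 1 := by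
  unfold phi
  rw [div_le_one (by positivity)]
  linarith
theorem phi_le_sq (s : ℝ) : phi s ≤ (max s 0) ^ 2 := by
  unfold phi
  rw [div_le_iff₀ (by positivity)]
  nlinarith [sq_nonneg (max s 0), sq_nonneg ((max s 0)^2)]
theorem phi'_nonneg (s : ℝ) : 0 ≤ phi' s := by unfold phi'; positivity
theorem mul_phi'_le (s : ℝ) (hs : 0 ≤ s) : s * phi' s ≤ 1 := by
  unfold phi'
  rw [max_eq_left hs, ← mul_div_assoc, div_le_one (by positivity)]
  nlinarith [sq_nonneg s, sq_nonneg (s^2)]
theorem continuous_phi : Continuous phi := by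
  unfold phi
  refine Continuous.div (by fun_prop) (by fun_prop) ?_
  intro x; positivity
theorem continuous_phi' : Continuous phi' := by
  unfold phi'
  refine Continuous.div (by fun_prop) (by fun_prop) ?_
  intro x; positivity

theorem tendsto_phi : Tendsto phi atTop (𝓝 1) := by
  have h : Tendsto (fun s : ℝ => 1 - (1 + s ^ 2)⁻¹) atTop (𝓝 (1 - 0)) := by
    refine tendsto_const_nhds.sub ?_
    refine tendsto_inv_atTop_zero.comp ?_
    exact tendsto_atTop_add_const_left _ _ (tendsto_pow_atTop (by norm_num))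
  rw [sub_zero] at h
  refine h.congr' ?_
  filter_upwards [eventually_ge_atTop 0] with s hs
  simp only [phi, max_eq_left hs]
  field_simp
  ring

theorem tendsto_mul_phi' : Tendsto (fun s => s * phi' s) atTop (𝓝 0) := by
  have h : Tendsto (fun s : ℝ => 2 * (1 + s ^ 2)⁻¹) atTop (𝓝 (2 * 0)) := by
    refine tendsto_const_nhds.mul ?_
    refine tendsto_inv_atTop_zero.comp ?_
    exact tendsto_atTop_add_const_left _ _ (tendsto_pow_atTop (by norm_num))
  rw [mul_zero] at h
  refine squeeze_zero' ?_ ?_ h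
  · filter_upwards [eventually_ge_atTop 0] with s hs
    exact mul_nonneg hs (phi'_nonneg s)
  · filter_upwards [eventually_ge_atTop 0] with s hs
    simp only [phi', max_eq_left hs]
    rw [← mul_div_assoc, ← div_eq_mul_inv, div_le_div_iff₀ (by positivity) (by positivity)]
    nlinarith [sq_nonneg s, sq_nonneg (s^2), mul_nonneg (sq_nonneg s) (sq_nonneg s)]


/-- defining function of the pipe -/
noncomputable def sig (x : E3) : ℝ := 1 - x 0 ^ 2 - x 1 ^ 2

noncomputable def sig' (x : E3) : E3 →L[ℝ] ℝ :=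
  (-(2 * x 0)) • (EuclideanSpace.proj 0 : E3 →L[ℝ] ℝ) - (2 * x 1) • (EuclideanSpace.proj 1 : E3 →L[ℝ] ℝ)

theorem mem_pipe {x : E3} : x ∈ Pipe ↔ 0 < sig x := by
  unfold Pipe sig
  rw [Set.mem_ofPred_eq]
  constructor <;> intro h <;> linarith

theorem hasFDerivAt_coord (i : Fin 3) (x : E3) :
    HasFDerivAt (fun y : E3 => y i) (EuclideanSpace.proj i : E3 →L[ℝ] ℝ) x :=
  (EuclideanSpace.proj i : E3 →L[ℝ] ℝ).hasFDerivAt

theorem hasFDerivAt_sig (x : E3) : HasFDerivAt sig (sig' x) x := by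
  have h0 := (hasFDerivAt_coord 0 x).pow 2
  have h1 := (hasFDerivAt_coord 1 x).pow 2
  have h2 := (h0.const_sub 1).sub h1
  refine h2.congr_fderiv ?_
  ext y
  simp [sig']

/-- cut-off -/
noncomputable def kap (n : ℕ) (x : E3) : ℝ := phi (n * sig x)

noncomputable def kap' (n : ℕ) (x : E3) : E3 →L[ℝ] ℝ := (phi' (n * sig x) * n) • sig' x

theorem hasFDerivAt_kap (n : ℕ) (x : E3) : HasFDerivAt (kap n) (kap' n x) x := by
  have h1 : HasFDerivAt (fun y => (n : ℝ) * sig y) ((n : ℝ) • sig' x) x :=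
    (hasFDerivAt_sig x).const_mul (n : ℝ)
  have h2 := (hasDerivAt_phi ((n : ℝ) * sig x)).comp_hasFDerivAt x h1
  refine h2.congr_fderiv ?_
  ext y
  simp [kap', mul_assoc]

theorem abs_kap_le (n : ℕ) (x : E3) : |kap n x| ≤ 1 := by
  have h : |kap n x| = kap n x := abs_of_nonneg (phi_nonneg _)
  rw [h]; exact phi_le_one _

theorem kap_of_notMem (n : ℕ) {x : E3} (hx : x ∉ Pipe) : kap n x = 0 := by
  rw [mem_pipe, not_lt] at hx
  have : (n : ℝ) * sig x ≤ 0 := mul_nonpos_of_nonneg_of_nonpos (by positivity) hx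
  simp [kap, phi, max_eq_right this]

/-- the product of the cut-off with a function differentiable in the pipe -/
theorem hasFDerivAt_kap_mul (n : ℕ) (f : E3 → ℝ) (C : ℝ) (hd : ∀ x ∈ Pipe, DifferentiableAt ℝ f x)
    (hf : ∀ x ∈ Pipe, |f x| ≤ C) (x : E3) :
    HasFDerivAt (fun y => kap n y * f y)
      (Pipe.indicator (fun y => kap n y • fderiv ℝ f y + f y • kap' n y) x) x := by
  by_cases hx : x ∈ Pipe
  · rw [indicator_of_mem hx]
    exact (hasFDerivAt_kap n x).mul (hd x hx).hasFDerivAt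
  · rw [indicator_of_notMem hx]
    have hC : 0 ≤ C := by
      have h0 : (0 : E3) ∈ Pipe := by simp [Pipe]
      exact (abs_nonneg _).trans (hf 0 h0)
    apply Asymptotics.IsBigO.hasFDerivAt (n := 2) _ (by norm_num)
    have h1 : (fun y => sig y - sig x) =O[𝓝 x] fun y => y - x :=
      (hasFDerivAt_sig x).isBigO_sub
    have h2 : (fun y => kap n y * f y) =O[𝓝 x] fun y => (sig y - sig x) ^ 2 := by
      apply Asymptotics.IsBigO.of_bound ((n:ℝ) ^ 2 * C)
      refine Eventually.of_forall fun y => ?_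
      by_cases hy : y ∈ Pipe
      · rw [mem_pipe] at hx
        have hy' := mem_pipe.1 hy
        push Not at hx
        have hk : |kap n y| = kap n y := abs_of_nonneg (phi_nonneg _)
        rw [norm_mul, Real.norm_eq_abs, Real.norm_eq_abs, Real.norm_eq_abs, hk,
          abs_of_nonneg (sq_nonneg (sig y - sig x))]
        have h3 : kap n y ≤ (n:ℝ)^2 * (sig y - sig x) ^ 2 := by
          refine (phi_le_sq _).trans ?_
          rw [max_eq_left (by positivity), mul_pow]
          gcongr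
          linarith
        calc kap n y * |f y| ≤ ((n:ℝ)^2 * (sig y - sig x) ^ 2) * C := by
              apply mul_le_mul h3 (hf y hy) (abs_nonneg _) (by positivity)
          _ = _ := by ring
      · rw [kap_of_notMem n hy]
        simp only [zero_mul, norm_zero]
        positivity
    refine h2.trans ?_
    exact h1.norm_right.pow 2

theorem integral_fderiv_eq_zero {h : E3 → ℝ} {h' : E3 → (E3 →L[ℝ] ℝ)} (v : E3)
    (hd : ∀ x, HasFDerivAt h (h' x) x) (hi : Integrable h) (hi' : Integrable (fun x => h' x v)) :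
    ∫ x, h' x v = 0 := by
  have := integral_bilinear_hasFDerivAt_right_eq_neg_left_of_integrable (μ := (volume : Measure E3))
    (f := h) (f' := h') (g := fun _ => (1:ℝ)) (g' := fun _ => 0) (v := v)
    (B := ContinuousLinearMap.mul ℝ ℝ) (by simpa using hi') (by simp) (by simpa using hi)
    (fun x _ => hd x) (fun x _ => hasFDerivAt_const _ _)
  simpa using this


theorem norm_e (i : Fin 3) : ‖e i‖ = 1 := by simp [e]

theorem coord_le_norm (x : E3) (i : Fin 3) : |x i| ≤ ‖x‖ := by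
  simpa using EuclideanSpace.norm_eq x ▸ Real.abs_le_sqrt (by
    have : ∀ j ∈ (Finset.univ : Finset (Fin 3)), 0 ≤ ‖x j‖ ^ 2 := fun j _ => sq_nonneg _
    simpa using Finset.single_le_sum this (Finset.mem_univ i))

theorem integrableOn_of_bound {f : E3 → ℝ} {C : ℝ} (hm : AEStronglyMeasurable f (volume.restrict Pipe))
    (hf : ∀ x ∈ Pipe, |f x| ≤ C * D x) : IntegrableOn f Pipe := by
  refine Integrable.mono' (integrableOn_D.const_mul C) hm ?_
  refine (ae_restrict_iff' measurable_pipe).2 (ae_of_all _ fun x hx => ?_)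
  exact hf x hx

theorem aesm_of_diff {F : Type*} [NormedAddCommGroup F] [NormedSpace ℝ F] {f : E3 → F}
    [SecondCountableTopology F] [MeasurableSpace F] [BorelSpace F]
    (hd : ∀ x ∈ Pipe, DifferentiableAt ℝ f x) : AEStronglyMeasurable f (volume.restrict Pipe) := by
  have : ContinuousOn f Pipe := fun x hx => (hd x hx).continuousAt.continuousWithinAt
  exact this.aestronglyMeasurable measurable_pipe

theorem sig'_e (x : E3) (i : Fin 3) : sig' x (e i) = if i = 2 then 0 else -(2 * x i) := by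
  fin_cases i <;> simp [sig', e]

theorem sum_sig' (x : E3) (b : E3) : ∑ i, b i * sig' x (e i) = -(2 * (x 0 * b 0 + x 1 * b 1)) := by
  rw [Fin.sum_univ_three]
  simp only [sig'_e]
  simp
  ring

/-- the divergence theorem in the pipe for decaying fields tangent to the wall -/
theorem integral_divergence_eq_zero (B : E3 → E3) (C : ℝ)
    (hd : ∀ x ∈ Pipe, DifferentiableAt ℝ B x)
    (hB : ∀ x ∈ Pipe, ‖B x‖ ≤ C * D x)
    (hB' : ∀ x ∈ Pipe, ‖fderiv ℝ B x‖ ≤ C * D x)
    (ht : ∀ x ∈ Pipe, |x 0 * B x 0 + x 1 * B x 1| ≤ C * sig x * D x) :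
    IntegrableOn (divergence B) Pipe ∧ ∫ x in Pipe, divergence B x = 0 := by
  have hC : 0 ≤ C := by
    have h0 : (0 : E3) ∈ Pipe := by simp [Pipe]
    have h1 := hB 0 h0
    have h2 := D_pos 0
    by_contra h
    push Not at h
    nlinarith [norm_nonneg (B 0)]
  have hdi : ∀ i : Fin 3, ∀ x ∈ Pipe, DifferentiableAt ℝ (fun y => B y i) x := by
    intro i x hx
    exact (EuclideanSpace.proj i : E3 →L[ℝ] ℝ).differentiableAt.comp x (hd x hx)
  have hfi : ∀ i : Fin 3, ∀ x ∈ Pipe, ∀ y, fderiv ℝ (fun y => B y i) x y = fderiv ℝ B x y i := by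
    intro i x hx y
    have := ((EuclideanSpace.proj i : E3 →L[ℝ] ℝ).hasFDerivAt.comp x (hd x hx).hasFDerivAt).fderiv
    have h2 : fderiv ℝ (fun y => B y i) x = (EuclideanSpace.proj i : E3 →L[ℝ] ℝ).comp (fderiv ℝ B x) := this
    rw [h2]
    rfl
  have hbi : ∀ i : Fin 3, ∀ x ∈ Pipe, |B x i| ≤ C * D x := fun i x hx =>
    (coord_le_norm _ i).trans (hB x hx)
  have hbi1 : ∀ i : Fin 3, ∀ x ∈ Pipe, |B x i| ≤ C := fun i x hx =>
    (hbi i x hx).trans (by nlinarith [D_le_one x, D_pos x])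
  have hBd : ∀ x ∈ Pipe, ∀ i : Fin 3, |fderiv ℝ B x (e i) i| ≤ C * D x := by
    intro x hx i
    refine (coord_le_norm _ i).trans ?_
    refine ((fderiv ℝ B x).le_opNorm _).trans ?_
    rw [norm_e, mul_one]
    exact hB' x hx
  have hsig'm : ∀ i : Fin 3, Continuous (fun x : E3 => sig' x (e i)) := by
    intro i
    simp only [sig'_e]
    split_ifs <;> fun_prop
  have hsigc : Continuous sig := by unfold sig; fun_prop
  -- step 1: for every n the integral of div (kap n • B) vanishes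
  have step1 : ∀ n : ℕ, ∫ x in Pipe, (kap n x * divergence B x
      - 2 * (n * phi' (n * sig x)) * (x 0 * B x 0 + x 1 * B x 1)) = 0 := by
    intro n
    have hi : ∀ i : Fin 3, IntegrableOn (fun x => kap n x * fderiv ℝ B x (e i) i
        + B x i * kap' n x (e i)) Pipe ∧
        ∫ x in Pipe, (kap n x * fderiv ℝ B x (e i) i + B x i * kap' n x (e i)) = 0 := by
      intro i
      have hmeas : AEStronglyMeasurable (fun x => kap n x * fderiv ℝ B x (e i) i
        + B x i * kap' n x (e i)) (volume.restrict Pipe) := by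
        have m1 : Measurable (fun x => fderiv ℝ B x (e i) i) := by
          have : Measurable (fun x => fderiv ℝ B x (e i)) := measurable_fderiv_apply_const ℝ B (e i)
          exact (EuclideanSpace.proj i : E3 →L[ℝ] ℝ).continuous.measurable.comp this
        have m2 : Continuous (kap n) := continuous_phi.comp (by fun_prop)
        have m3 : Continuous (fun x => kap' n x (e i)) := by
          have : (fun x => kap' n x (e i)) = fun x => (phi' (n * sig x) * n) * sig' x (e i) := by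
            ext x; simp [kap']
          rw [this]
          exact ((continuous_phi'.comp (by fun_prop)).mul continuous_const).mul (hsig'm i)
        exact (m2.measurable.mul m1).aestronglyMeasurable.add
          ((aesm_of_diff (hdi i)).mul m3.aestronglyMeasurable)
      have hkb : ∀ x ∈ Pipe, |kap' n x (e i)| ≤ 2 * n := by
        intro x hx
        have hs := mem_pipe.1 hx
        have h1 : |sig' x (e i)| ≤ 2 := by
          rw [sig'_e]
          split_ifs with h
          · simp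
          · rw [abs_neg, abs_mul, abs_two]
            have : |x i| ≤ 1 := by
              rw [abs_le_one_iff_mul_self_le_one]
              unfold sig at hs
              fin_cases i
              · simp; nlinarith [sq_nonneg (x 1)]
              · simp; nlinarith [sq_nonneg (x 0)]
              · simp at h
            linarith
        have h2 : phi' (n * sig x) ≤ 1 := by
          unfold phi'
          rw [div_le_one (by positivity)]
          nlinarith [sq_nonneg (1 - max (n * sig x) 0), sq_nonneg (max (n * sig x) 0),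
            sq_nonneg ((max (n * sig x) 0)^2)]
        have h3 : kap' n x (e i) = (phi' (n * sig x) * n) * sig' x (e i) := by simp [kap']
        rw [h3, abs_mul, abs_of_nonneg (mul_nonneg (phi'_nonneg _) (by positivity))]
        calc phi' (n * sig x) * n * |sig' x (e i)| ≤ (1 * n) * 2 := by
              apply mul_le_mul _ h1 (abs_nonneg _) (by positivity)
              gcongr
          _ = 2 * n := by ring
      have hint : IntegrableOn (fun x => kap n x * fderiv ℝ B x (e i) i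
        + B x i * kap' n x (e i)) Pipe := by
        apply integrableOn_of_bound (C := C + C * (2 * n)) hmeas
        intro x hx
        refine (abs_add_le _ _).trans ?_
        rw [abs_mul, abs_mul]
        have hk0 : |kap n x| ≤ 1 := abs_kap_le n x
        have hDp := D_pos x
        calc |kap n x| * |fderiv ℝ B x (e i) i| + |B x i| * |kap' n x (e i)|
            ≤ 1 * (C * D x) + (C * D x) * (2 * n) := by
              apply add_le_add
              · exact mul_le_mul hk0 (hBd x hx i) (abs_nonneg _) zero_le_one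
              · exact mul_le_mul (hbi i x hx) (hkb x hx) (abs_nonneg _) (by positivity)
          _ = _ := by ring
      refine ⟨hint, ?_⟩
      set h : E3 → ℝ := fun y => kap n y * B y i with hh
      set h' : E3 → (E3 →L[ℝ] ℝ) :=
        fun x => Pipe.indicator (fun y => kap n y • fderiv ℝ (fun z => B z i) y + B y i • kap' n y) x with hh'
      have hde : ∀ x, HasFDerivAt h (h' x) x := fun x =>
        hasFDerivAt_kap_mul n (fun y => B y i) C (hdi i) (hbi1 i) x
      have heq : (fun x => h' x (e i)) = Pipe.indicator (fun x => kap n x * fderiv ℝ B x (e i) i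
        + B x i * kap' n x (e i)) := by
        ext x
        by_cases hx : x ∈ Pipe
        · simp [hh', indicator_of_mem hx, hfi i x hx]
        · simp [hh', indicator_of_notMem hx]
      have hI' : Integrable (fun x => h' x (e i)) := by
        rw [heq]
        exact hint.integrable_indicator measurable_pipe
      have hI : Integrable h := by
        have : h = Pipe.indicator h := by
          ext x
          by_cases hx : x ∈ Pipe
          · rw [indicator_of_mem hx]
          · rw [indicator_of_notMem hx, hh]; simp [kap_of_notMem n hx]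
        rw [this]
        apply IntegrableOn.integrable_indicator _ measurable_pipe
        apply integrableOn_of_bound (C := C)
        · exact ((continuous_iff_continuousAt.2 fun x => (hde x).continuousAt)).aestronglyMeasurable
        · intro x hx
          rw [hh]
          simp only
          rw [abs_mul]
          have hk0 : |kap n x| ≤ 1 := abs_kap_le n x
          calc |kap n x| * |B x i| ≤ 1 * (C * D x) :=
                mul_le_mul hk0 (hbi i x hx) (abs_nonneg _) zero_le_one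
            _ = _ := by ring
      have := integral_fderiv_eq_zero (e i) hde hI hI'
      rw [heq, integral_indicator measurable_pipe] at this
      exact this
    have hsum : ∫ x in Pipe, ∑ i, (kap n x * fderiv ℝ B x (e i) i + B x i * kap' n x (e i)) = 0 := by
      rw [integral_finsetSum _ (fun i _ => (hi i).1)]
      exact Finset.sum_eq_zero fun i _ => (hi i).2
    rw [← hsum]
    congr 1
    ext x
    rw [Finset.sum_add_distrib, ← Finset.mul_sum]
    have : ∑ i, B x i * kap' n x (e i) = (phi' (n * sig x) * n) * ∑ i, B x i * sig' x (e i) := by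
      rw [Finset.mul_sum]
      refine Finset.sum_congr rfl fun i _ => ?_
      simp [kap']
      ring
    rw [this, sum_sig']
    unfold divergence
    ring
  -- step 2: pass to the limit
  have hlim : Tendsto (fun n : ℕ => ∫ x in Pipe, (kap n x * divergence B x
      - 2 * (n * phi' (n * sig x)) * (x 0 * B x 0 + x 1 * B x 1))) atTop
      (𝓝 (∫ x in Pipe, divergence B x)) := by
    have hdivm : Measurable (fun x => divergence B x) := by
      unfold divergence
      refine Finset.measurable_sum _ fun i _ => ?_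
      have : Measurable (fun x => fderiv ℝ B x (e i)) := measurable_fderiv_apply_const ℝ B (e i)
      exact (EuclideanSpace.proj i : E3 →L[ℝ] ℝ).continuous.measurable.comp this
    have hdivb : ∀ x ∈ Pipe, |divergence B x| ≤ 3 * C * D x := by
      intro x hx
      unfold divergence
      refine (Finset.abs_sum_le_sum_abs _ _).trans ?_
      refine (Finset.sum_le_card_nsmul _ _ (C * D x) fun i _ => hBd x hx i).trans ?_
      simp
      linarith
    apply tendsto_integral_of_dominated_convergence (fun x => (3 * C + 2 * C) * D x)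
    · intro n
      have m2 : Continuous (kap n) := continuous_phi.comp (by fun_prop)
      refine (m2.measurable.mul hdivm).aestronglyMeasurable.sub ?_
      have hc1 : Continuous (fun x : E3 => 2 * (n * phi' (n * sig x))) :=
        continuous_const.mul (continuous_const.mul (continuous_phi'.comp (by fun_prop)))
      refine hc1.aestronglyMeasurable.mul ?_
      have hx0 : Continuous (fun x : E3 => x 0) := by fun_prop
      have hx1 : Continuous (fun x : E3 => x 1) := by fun_prop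
      exact (hx0.aestronglyMeasurable.mul (aesm_of_diff (hdi 0))).add
        (hx1.aestronglyMeasurable.mul (aesm_of_diff (hdi 1)))
    · exact integrableOn_D.const_mul _
    · intro n
      refine (ae_restrict_iff' measurable_pipe).2 (ae_of_all _ fun x hx => ?_)
      have hs := mem_pipe.1 hx
      have hDp := D_pos x
      rw [Real.norm_eq_abs]
      refine (abs_sub _ _).trans ?_
      have hk0 : |kap n x| ≤ 1 := abs_kap_le n x
      have h1 : |kap n x * divergence B x| ≤ 3 * C * D x := by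
        rw [abs_mul]
        calc |kap n x| * |divergence B x| ≤ 1 * (3 * C * D x) :=
              mul_le_mul hk0 (hdivb x hx) (abs_nonneg _) zero_le_one
          _ = _ := by ring
      have h2 : |2 * (n * phi' (n * sig x)) * (x 0 * B x 0 + x 1 * B x 1)| ≤ 2 * C * D x := by
        rw [abs_mul, abs_of_nonneg (by have := phi'_nonneg (n * sig x); positivity)]
        have h3 := ht x hx
        have h4 : (n * sig x) * phi' (n * sig x) ≤ 1 := mul_phi'_le _ (by positivity)
        calc 2 * (n * phi' (n * sig x)) * |x 0 * B x 0 + x 1 * B x 1|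
            ≤ 2 * (n * phi' (n * sig x)) * (C * sig x * D x) := by
              have := phi'_nonneg (n * sig x)
              gcongr
          _ = 2 * C * D x * ((n * sig x) * phi' (n * sig x)) := by ring
          _ ≤ 2 * C * D x * 1 := by gcongr
          _ = _ := by ring
      linarith
    · refine (ae_restrict_iff' measurable_pipe).2 (ae_of_all _ fun x hx => ?_)
      have hs := mem_pipe.1 hx
      have hn : Tendsto (fun n : ℕ => (n : ℝ) * sig x) atTop atTop :=
        tendsto_natCast_atTop_atTop.atTop_mul_const hs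
      have t1 : Tendsto (fun n : ℕ => kap n x) atTop (𝓝 1) := tendsto_phi.comp hn
      have t2 : Tendsto (fun n : ℕ => ((n : ℝ) * sig x) * phi' ((n : ℝ) * sig x)) atTop (𝓝 0) :=
        tendsto_mul_phi'.comp hn
      have t3 : Tendsto (fun n : ℕ => kap n x * divergence B x
        - 2 * (((n : ℝ) * sig x) * phi' ((n : ℝ) * sig x)) * ((x 0 * B x 0 + x 1 * B x 1) / sig x)) atTop
          (𝓝 (1 * divergence B x - 2 * 0 * ((x 0 * B x 0 + x 1 * B x 1) / sig x))) :=
        (t1.mul_const _).sub ((t2.const_mul 2).mul_const _)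
      simp only [one_mul, mul_zero, zero_mul, sub_zero] at t3
      refine t3.congr fun n => ?_
      field_simp
  have hz : (fun n : ℕ => ∫ x in Pipe, (kap n x * divergence B x
      - 2 * (n * phi' (n * sig x)) * (x 0 * B x 0 + x 1 * B x 1))) = fun _ => 0 := funext step1
  rw [hz] at hlim
  refine ⟨?_, tendsto_nhds_unique hlim tendsto_const_nhds⟩
  apply integrableOn_of_bound (C := 3 * C)
  · unfold divergence
    refine Measurable.aestronglyMeasurable (Finset.measurable_sum _ fun i _ => ?_)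
    have : Measurable (fun x => fderiv ℝ B x (e i)) := measurable_fderiv_apply_const ℝ B (e i)
    exact (EuclideanSpace.proj i : E3 →L[ℝ] ℝ).continuous.measurable.comp this
  · intro x hx
    unfold divergence
    refine (Finset.abs_sum_le_sum_abs _ _).trans ?_
    refine (Finset.sum_le_card_nsmul _ _ (C * D x) fun i _ => hBd x hx i).trans ?_
    simp
    linarith


/-- growth of an integral functional from a lower bound on its time derivative -/
theorem grow (f f' : ℝ → E3 → ℝ) (A c τ : ℝ) (hτ : 0 ≤ τ)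
    (hd : ∀ t ∈ Icc 0 τ, ∀ x ∈ Pipe, HasDerivWithinAt (fun s => f s x) (f' t x) (Icc 0 τ) t)
    (hm : ∀ t ∈ Icc 0 τ, AEStronglyMeasurable (f t) (volume.restrict Pipe))
    (hm' : ∀ t ∈ Icc 0 τ, AEStronglyMeasurable (f' t) (volume.restrict Pipe))
    (hf : ∀ t ∈ Icc 0 τ, ∀ x ∈ Pipe, |f t x| ≤ A * D x)
    (hf' : ∀ t ∈ Icc 0 τ, ∀ x ∈ Pipe, |f' t x| ≤ A * D x)
    (hc : ∀ t ∈ Icc 0 τ, c ≤ ∫ x in Pipe, f' t x) :
    c * τ ≤ (∫ x in Pipe, f τ x) - ∫ x in Pipe, f 0 x := by
  have hcont : ContinuousOn (fun t => ∫ x in Pipe, f t x) (Icc 0 τ) := by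
    intro t ht
    apply continuousWithinAt_of_dominated (bound := fun x => A * D x)
    · filter_upwards [self_mem_nhdsWithin] with s hs using hm s hs
    · filter_upwards [self_mem_nhdsWithin] with s hs
      exact (ae_restrict_iff' measurable_pipe).2 (ae_of_all _ fun x hx => hf s hs x hx)
    · exact integrableOn_D.const_mul _
    · exact (ae_restrict_iff' measurable_pipe).2 (ae_of_all _ fun x hx => (hd t ht x hx).continuousWithinAt)
  have hder : ∀ t ∈ Ioo 0 τ, HasDerivAt (fun t => ∫ x in Pipe, f t x) (∫ x in Pipe, f' t x) t := by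
    intro t ht
    have hn : Ioo 0 τ ∈ 𝓝 t := isOpen_Ioo.mem_nhds ht
    refine (hasDerivAt_integral_of_dominated_loc_of_deriv_le (bound := fun x => A * D x) hn ?_ ?_ ?_ ?_ ?_ ?_).2
    · filter_upwards [hn] with s hs using hm s (Ioo_subset_Icc_self hs)
    · exact integrableOn_of_bound (hm t (Ioo_subset_Icc_self ht)) (hf t (Ioo_subset_Icc_self ht))
    · exact hm' t (Ioo_subset_Icc_self ht)
    · exact (ae_restrict_iff' measurable_pipe).2 (ae_of_all _ fun x hx s hs => hf' s (Ioo_subset_Icc_self hs) x hx)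
    · exact integrableOn_D.const_mul _
    · refine (ae_restrict_iff' measurable_pipe).2 (ae_of_all _ fun x hx s hs => ?_)
      exact (hd s (Ioo_subset_Icc_self hs) x hx).hasDerivAt (Icc_mem_nhds hs.1 hs.2)
  have := (convex_Icc 0 τ).mul_sub_le_image_sub_of_le_deriv hcont (C := c)
    (fun t ht => by
      rw [interior_Icc] at ht
      exact (hder t ht).differentiableAt.differentiableWithinAt)
    (fun t ht => by
      rw [interior_Icc] at ht
      rw [(hder t ht).deriv]
      exact hc t (Ioo_subset_Icc_self ht)) 0 (left_mem_Icc.2 hτ) τ (right_mem_Icc.2 hτ) hτ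
  simpa using this


theorem sum_coord_e (y : E3) : ∑ i, y i • e i = y := by
  ext j
  fin_cases j <;> simp [Fin.sum_univ_three, e]

theorem fderiv_smul_apply' {f : E3 → ℝ} {u : E3 → E3} {x : E3} (hf : DifferentiableAt ℝ f x)
    (hu : DifferentiableAt ℝ u x) :
    fderiv ℝ (fun y => f y • u y) x = f x • fderiv ℝ u x + (fderiv ℝ f x).smulRight (u x) :=
  fderiv_fun_smul hf hu

theorem divergence_smul {f : E3 → ℝ} {u : E3 → E3} {x : E3} (hf : DifferentiableAt ℝ f x)
    (hu : DifferentiableAt ℝ u x) :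
    divergence (fun y => f y • u y) x = f x * divergence u x + fderiv ℝ f x (u x) := by
  unfold divergence
  rw [fderiv_smul_apply' hf hu]
  have h1 : fderiv ℝ f x (u x) = ∑ i, u x i * fderiv ℝ f x (e i) := by
    conv_lhs => rw [← sum_coord_e (u x)]
    rw [map_sum]
    simp
  rw [h1, Finset.mul_sum, ← Finset.sum_add_distrib]
  refine Finset.sum_congr rfl fun i _ => ?_
  simp
  ring

theorem div_smul_zero (f : E3 → ℝ) (u : E3 → E3) (C : ℝ) (hC : 0 ≤ C)
    (hf : ∀ x ∈ Pipe, DifferentiableAt ℝ f x) (hu : ∀ x ∈ Pipe, DifferentiableAt ℝ u x)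
    (hdiv : ∀ x ∈ Pipe, divergence u x = 0)
    (h1 : ∀ x ∈ Pipe, |f x| * ‖u x‖ ≤ C * D x)
    (h2 : ∀ x ∈ Pipe, |f x| * ‖fderiv ℝ u x‖ ≤ C * D x)
    (h3 : ∀ x ∈ Pipe, ‖fderiv ℝ f x‖ * ‖u x‖ ≤ C * D x)
    (h4 : ∀ x ∈ Pipe, |f x| * |x 0 * u x 0 + x 1 * u x 1| ≤ C * sig x * D x) :
    IntegrableOn (fun x => fderiv ℝ f x (u x)) Pipe ∧ ∫ x in Pipe, fderiv ℝ f x (u x) = 0 := by
  have key := integral_divergence_eq_zero (fun y => f y • u y) (2 * C)
    (fun x hx => (hf x hx).smul (hu x hx))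
    (fun x hx => by
      rw [norm_smul, Real.norm_eq_abs]
      have := h1 x hx
      have := D_pos x
      nlinarith)
    (fun x hx => by
      rw [fderiv_smul_apply' (hf x hx) (hu x hx)]
      refine (norm_add_le _ _).trans ?_
      rw [norm_smul, Real.norm_eq_abs, ContinuousLinearMap.norm_smulRight_apply]
      have := h2 x hx
      have := h3 x hx
      linarith)
    (fun x hx => by
      have hs := (mem_pipe.1 hx).le
      have hD := (D_pos x).le
      have : x 0 * (f x • u x) 0 + x 1 * (f x • u x) 1 = f x * (x 0 * u x 0 + x 1 * u x 1) := by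
        simp; ring
      rw [this, abs_mul]
      refine (h4 x hx).trans ?_
      have : 0 ≤ C * sig x * D x := by positivity
      linarith)
  have heq : ∀ x ∈ Pipe, divergence (fun y => f y • u y) x = fderiv ℝ f x (u x) := by
    intro x hx
    rw [divergence_smul (hf x hx) (hu x hx), hdiv x hx]
    ring
  constructor
  · exact (key.1).congr_fun heq measurable_pipe
  · rw [← setIntegral_congr_fun measurable_pipe heq]
    exact key.2


noncomputable def W (x : E3) : ℝ := ((1 + x 2 ^ 2) ^ 4)⁻¹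

theorem W_pos (x : E3) : 0 < W x := by unfold W; positivity

theorem one_le_z (x : E3) : 1 ≤ 1 + x 2 ^ 2 := by nlinarith [sq_nonneg (x 2)]

theorem z_mul_W_le (x : E3) : (1 + x 2 ^ 2) ^ 2 * W x ≤ D x := by
  unfold W D
  have h := one_le_z x
  rw [← div_eq_mul_inv, div_le_iff₀ (by positivity), ← div_eq_inv_mul, le_div_iff₀ (by positivity)]
  apply le_of_eq
  ring

theorem z1_mul_W_le (x : E3) : (1 + x 2 ^ 2) * W x ≤ D x := by
  refine le_trans ?_ (z_mul_W_le x)
  have h := one_le_z x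
  have := W_pos x
  gcongr
  nlinarith

theorem W_le_D (x : E3) : W x ≤ D x := by
  refine le_trans ?_ (z1_mul_W_le x)
  have h := one_le_z x
  have := W_pos x
  nlinarith

theorem W_le_one (x : E3) : W x ≤ 1 := (W_le_D x).trans (D_le_one x)

structure Sol (V Cw Cp τ : ℝ) (v : ℝ → E3 → E3) (p : ℝ → E3 → ℝ) : Prop where
  hτ : 0 ≤ τ
  hCw : 0 ≤ Cw
  hCp : 0 ≤ Cp
  vd : ∀ t ∈ Icc 0 τ, ∀ x ∈ Pipe, DifferentiableAt ℝ (v t) x
  vb : ∀ t ∈ Icc 0 τ, ∀ x ∈ Pipe, ‖v t x - V • e 2‖ ≤ Cw * W x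
  dvb : ∀ t ∈ Icc 0 τ, ∀ x ∈ Pipe, ‖fderiv ℝ (v t) x‖ ≤ Cw * W x
  div : ∀ t ∈ Icc 0 τ, ∀ x ∈ Pipe, divergence (v t) x = 0
  tang : ∀ t ∈ Icc 0 τ, ∀ x ∈ Pipe, |x 0 * v t x 0 + x 1 * v t x 1| ≤ Cw * sig x * W x
  pd : ∀ t ∈ Icc 0 τ, ∀ x ∈ Pipe, DifferentiableAt ℝ (p t) x
  pb : ∀ t ∈ Icc 0 τ, ∀ x ∈ Pipe, ‖fderiv ℝ (p t) x‖ ≤ Cp
  euler : ∀ t ∈ Icc 0 τ, ∀ x ∈ Pipe,
    HasDerivWithinAt (fun s => v s x) (-(fderiv ℝ (v t) x (v t x)) - gradient (p t) x) (Icc 0 τ) t

theorem convex_pipe : Convex ℝ Pipe := by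
  have h : Pipe = {x : E3 | x 0 ^ 2 + x 1 ^ 2 < 1} := rfl
  intro x hx y hy a b ha hb hab
  rw [h, Set.mem_ofPred_eq] at *
  simp only [PiLp.add_apply, PiLp.smul_apply, smul_eq_mul]
  have hb' : b = 1 - a := by linarith
  subst hb'
  have h1 : (a * x 0 + (1 - a) * y 0) ^ 2 ≤ a * x 0 ^ 2 + (1 - a) * y 0 ^ 2 := by
    nlinarith [mul_nonneg (mul_nonneg ha hb) (sq_nonneg (x 0 - y 0))]
  have h2 : (a * x 1 + (1 - a) * y 1) ^ 2 ≤ a * x 1 ^ 2 + (1 - a) * y 1 ^ 2 := by
    nlinarith [mul_nonneg (mul_nonneg ha hb) (sq_nonneg (x 1 - y 1))]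
  rcases eq_or_lt_of_le ha with h0 | h0
  · subst h0
    simpa using hy
  · nlinarith

theorem p_growth {p : E3 → ℝ} {Cp : ℝ} (hd : ∀ x ∈ Pipe, DifferentiableAt ℝ p x)
    (hb : ∀ x ∈ Pipe, ‖fderiv ℝ p x‖ ≤ Cp) (x : E3) (hx : x ∈ Pipe) :
    |p x - p 0| ≤ Cp * (1 + x 2 ^ 2) := by
  have h0 : (0 : E3) ∈ Pipe := by simp [Pipe]
  have hCp : 0 ≤ Cp := (norm_nonneg _).trans (hb 0 h0)
  have h := convex_pipe.norm_image_sub_le_of_norm_fderiv_le hd hb h0 hx
  rw [Real.norm_eq_abs, sub_zero] at h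
  refine h.trans ?_
  have h1 := norm_le_of_pipe hx
  have h2 := one_le_z x
  have h3 : ‖x‖ ≤ 1 + x 2 ^ 2 := by
    nlinarith [norm_nonneg x]
  gcongr

section energy

variable {V Cw Cp τ : ℝ} {v : ℝ → E3 → E3} {p : ℝ → E3 → ℝ}

theorem Sol.vn (h : Sol V Cw Cp τ v p) {t : ℝ} (ht : t ∈ Icc 0 τ) {x : E3} (hx : x ∈ Pipe) :
    ‖v t x‖ ≤ |V| + Cw := by
  have h1 : v t x = V • e 2 + (v t x - V • e 2) := by abel
  rw [h1]
  refine (norm_add_le _ _).trans ?_
  rw [norm_smul, norm_e, mul_one, Real.norm_eq_abs]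
  have h2 := h.vb t ht x hx
  have h3 := W_le_one x
  have h4 := W_pos x
  have := h.hCw
  nlinarith

theorem fderiv_sub_e2 (f : E3 → E3) (x : E3) : fderiv ℝ (fun y => f y - V • e 2) x = fderiv ℝ f x := by
  rw [fderiv_sub_const]

theorem divergence_sub_e2 (f : E3 → E3) (x : E3) :
    divergence (fun y => f y - V • e 2) x = divergence f x := by
  unfold divergence
  rw [fderiv_sub_const]

theorem Sol.energy_pieces (h : Sol V Cw Cp τ v p) {t : ℝ} (ht : t ∈ Icc 0 τ) :
    (IntegrableOn (fun x => fderiv ℝ (fun y => ‖v t y - V • e 2‖ ^ 2) x (v t x)) Pipe ∧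
      ∫ x in Pipe, fderiv ℝ (fun y => ‖v t y - V • e 2‖ ^ 2) x (v t x) = 0) ∧
    (IntegrableOn (fun x => fderiv ℝ (fun y => p t y - p t 0) x (v t x - V • e 2)) Pipe ∧
      ∫ x in Pipe, fderiv ℝ (fun y => p t y - p t 0) x (v t x - V • e 2) = 0) := by
  have hCw := h.hCw
  have hCp := h.hCp
  have hVa := abs_nonneg V
  constructor
  · apply div_smul_zero (fun y => ‖v t y - V • e 2‖ ^ 2) (v t) (2 * Cw ^ 2 * (|V| + Cw)) (by positivity)
    · intro x hx
      exact ((h.vd t ht x hx).sub_const _).norm_sq ℝ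
    · exact h.vd t ht
    · exact h.div t ht
    · intro x hx
      have h1 := h.vb t ht x hx
      have h2 := h.vn ht hx
      have hW := W_pos x
      have hDp := (D_pos x).le
      have hWD := W_le_D x
      have hW1 := W_le_one x
      rw [abs_of_nonneg (sq_nonneg _)]
      calc ‖v t x - V • e 2‖ ^ 2 * ‖v t x‖ ≤ (Cw * W x) ^ 2 * (|V| + Cw) := by gcongr
        _ = Cw ^ 2 * (|V| + Cw) * (W x * W x) := by ring
        _ ≤ Cw ^ 2 * (|V| + Cw) * (D x * 1) := by gcongr
        _ ≤ _ := by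
          have : 0 ≤ Cw ^ 2 * (|V| + Cw) * (D x) := by have := D_pos x; positivity
          nlinarith
    · intro x hx
      have h1 := h.vb t ht x hx
      have h2 := h.dvb t ht x hx
      have hW := W_pos x
      have hDp := (D_pos x).le
      have hWD := W_le_D x
      have hW1 := W_le_one x
      rw [abs_of_nonneg (sq_nonneg _)]
      calc ‖v t x - V • e 2‖ ^ 2 * ‖fderiv ℝ (v t) x‖ ≤ (Cw * W x) ^ 2 * (Cw * W x) := by gcongr
        _ = Cw ^ 2 * Cw * (W x * (W x * W x)) := by ring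
        _ ≤ Cw ^ 2 * Cw * (D x * (1 * 1)) := by gcongr
        _ ≤ _ := by
          have h3 : 0 ≤ Cw ^ 2 * |V| * (D x) := by have := D_pos x; positivity
          have h4 : 0 ≤ Cw ^ 2 * Cw * (D x) := by have := D_pos x; positivity
          nlinarith
    · intro x hx
      have h1 := h.vb t ht x hx
      have h2 := h.dvb t ht x hx
      have h3 := h.vn ht hx
      have hW := W_pos x
      have hDp := (D_pos x).le
      have hWD := W_le_D x
      have hW1 := W_le_one x
      have hfd : fderiv ℝ (fun y => ‖v t y - V • e 2‖ ^ 2) x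
          = 2 • (innerSL ℝ (v t x - V • e 2)).comp (fderiv ℝ (v t) x) :=
        (((h.vd t ht x hx).hasFDerivAt.sub_const (V • e 2)).norm_sq).fderiv
      have hn : ‖fderiv ℝ (fun y => ‖v t y - V • e 2‖ ^ 2) x‖ ≤ 2 * ((Cw * W x) * (Cw * W x)) := by
        rw [hfd]
        refine (norm_nsmul_le (n := 2)).trans ?_
        have : ‖(innerSL ℝ (v t x - V • e 2)).comp (fderiv ℝ (v t) x)‖ ≤ (Cw * W x) * (Cw * W x) := by
          refine (ContinuousLinearMap.opNorm_comp_le _ _).trans ?_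
          rw [innerSL_apply_norm]
          gcongr
        push_cast
        linarith
      calc ‖fderiv ℝ (fun y => ‖v t y - V • e 2‖ ^ 2) x‖ * ‖v t x‖
          ≤ (2 * ((Cw * W x) * (Cw * W x))) * (|V| + Cw) := by gcongr
        _ = 2 * Cw ^ 2 * (|V| + Cw) * (W x * W x) := by ring
        _ ≤ 2 * Cw ^ 2 * (|V| + Cw) * (D x * 1) := by gcongr
        _ = _ := by ring
    · intro x hx
      have h1 := h.vb t ht x hx
      have h2 := h.tang t ht x hx
      have hW := W_pos x
      have hDp := (D_pos x).le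
      have hWD := W_le_D x
      have hW1 := W_le_one x
      have hs := (mem_pipe.1 hx).le
      rw [abs_of_nonneg (sq_nonneg _)]
      calc ‖v t x - V • e 2‖ ^ 2 * |x 0 * v t x 0 + x 1 * v t x 1|
          ≤ (Cw * W x) ^ 2 * (Cw * sig x * W x) := by gcongr
        _ = Cw ^ 2 * Cw * sig x * (W x * (W x * W x)) := by ring
        _ ≤ Cw ^ 2 * Cw * sig x * (D x * (1 * 1)) := by gcongr
        _ ≤ _ := by
          have h3 : 0 ≤ Cw ^ 2 * |V| * sig x * (D x) := by have := D_pos x; positivity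
          have h4 : 0 ≤ Cw ^ 2 * Cw * sig x * (D x) := by have := D_pos x; positivity
          nlinarith
  · have hpg := fun x hx => p_growth (h.pd t ht) (h.pb t ht) x hx
    apply div_smul_zero (fun y => p t y - p t 0) (fun y => v t y - V • e 2) (Cp * Cw) (by positivity)
    · intro x hx
      exact (h.pd t ht x hx).sub_const _
    · intro x hx
      exact (h.vd t ht x hx).sub_const _
    · intro x hx
      rw [divergence_sub_e2]
      exact h.div t ht x hx
    · intro x hx
      have hW := W_pos x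
      have hDp := (D_pos x).le
      calc |p t x - p t 0| * ‖v t x - V • e 2‖ ≤ (Cp * (1 + x 2 ^ 2)) * (Cw * W x) := by
            have := hpg x hx
            have := h.vb t ht x hx
            gcongr
        _ = Cp * Cw * ((1 + x 2 ^ 2) * W x) := by ring
        _ ≤ _ := by have := z1_mul_W_le x; gcongr
    · intro x hx
      have hW := W_pos x
      have hDp := (D_pos x).le
      rw [fderiv_sub_e2]
      calc |p t x - p t 0| * ‖fderiv ℝ (v t) x‖ ≤ (Cp * (1 + x 2 ^ 2)) * (Cw * W x) := by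
            have := hpg x hx
            have := h.dvb t ht x hx
            gcongr
        _ = Cp * Cw * ((1 + x 2 ^ 2) * W x) := by ring
        _ ≤ _ := by have := z1_mul_W_le x; gcongr
    · intro x hx
      have hW := W_pos x
      have hDp := (D_pos x).le
      rw [fderiv_sub_const]
      calc ‖fderiv ℝ (p t) x‖ * ‖v t x - V • e 2‖ ≤ Cp * (Cw * W x) := by
            have := h.pb t ht x hx
            have := h.vb t ht x hx
            gcongr
        _ = Cp * Cw * W x := by ring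
        _ ≤ _ := by have := W_le_D x; gcongr
    · intro x hx
      have hW := W_pos x
      have hDp := (D_pos x).le
      have hs := (mem_pipe.1 hx).le
      have he : x 0 * (v t x - V • e 2) 0 + x 1 * (v t x - V • e 2) 1
          = x 0 * v t x 0 + x 1 * v t x 1 := by simp [e]
      rw [he]
      calc |p t x - p t 0| * |x 0 * v t x 0 + x 1 * v t x 1|
          ≤ (Cp * (1 + x 2 ^ 2)) * (Cw * sig x * W x) := by
            have := hpg x hx
            have := h.tang t ht x hx
            gcongr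
        _ = Cp * Cw * sig x * ((1 + x 2 ^ 2) * W x) := by ring
        _ ≤ _ := by have := z1_mul_W_le x; gcongr


theorem Sol.accel (h : Sol V Cw Cp τ v p) {t : ℝ} (ht : t ∈ Icc 0 τ) {x : E3} (hx : x ∈ Pipe) :
    ‖-(fderiv ℝ (v t) x (v t x)) - gradient (p t) x‖ ≤ Cw * (|V| + Cw) + Cp := by
  have hCw := h.hCw
  have hW1 := W_le_one x
  have hW := W_pos x
  refine (norm_sub_le _ _).trans ?_
  rw [norm_neg]
  have h1 : ‖gradient (p t) x‖ ≤ Cp := by
    have : ‖gradient (p t) x‖ = ‖fderiv ℝ (p t) x‖ := by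
      unfold gradient
      rw [LinearIsometryEquiv.norm_map]
    rw [this]
    exact h.pb t ht x hx
  have h2 : ‖fderiv ℝ (v t) x (v t x)‖ ≤ Cw * (|V| + Cw) := by
    refine ((fderiv ℝ (v t) x).le_opNorm _).trans ?_
    have h3 := h.dvb t ht x hx
    have h4 := h.vn ht hx
    calc ‖fderiv ℝ (v t) x‖ * ‖v t x‖ ≤ (Cw * W x) * (|V| + Cw) := by gcongr
      _ ≤ (Cw * 1) * (|V| + Cw) := by gcongr
      _ = _ := by ring
  linarith

theorem inner_gradient (q : E3 → ℝ) (x y : E3) : inner ℝ (gradient q x) y = fderiv ℝ q x y := by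
  unfold gradient
  rw [InnerProductSpace.toDual_symm_apply]

/-- conservation of energy -/
theorem Sol.energy (h : Sol V Cw Cp τ v p) :
    ∫ x in Pipe, ‖v τ x - V • e 2‖ ^ 2 = ∫ x in Pipe, ‖v 0 x - V • e 2‖ ^ 2 := by
  have hCw := h.hCw
  have hCp := h.hCp
  have hVa := abs_nonneg V
  have hτ := h.hτ
  set g : ℝ → E3 → ℝ := fun t x => -(fderiv ℝ (fun y => ‖v t y - V • e 2‖ ^ 2) x (v t x))
    - 2 * (fderiv ℝ (fun y => p t y - p t 0) x (v t x - V • e 2)) with hg
  have hgi : ∀ t ∈ Icc 0 τ, IntegrableOn (g t) Pipe ∧ ∫ x in Pipe, g t x = 0 := by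
    intro t ht
    obtain ⟨⟨i1, z1⟩, ⟨i2, z2⟩⟩ := h.energy_pieces ht
    constructor
    · exact i1.neg.sub (i2.const_mul 2)
    · rw [hg]
      simp only
      have e1 := integral_sub (i1.neg) (i2.const_mul 2)
      simp only [Pi.neg_apply] at e1
      rw [e1, integral_neg, integral_const_mul, z1, z2]
      simp
  have hgeq : ∀ t ∈ Icc 0 τ, ∀ x ∈ Pipe, g t x = 2 * inner ℝ (v t x - V • e 2)
      (-(fderiv ℝ (v t) x (v t x)) - gradient (p t) x) := by
    intro t ht x hx
    have hfd : fderiv ℝ (fun y => ‖v t y - V • e 2‖ ^ 2) x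
        = 2 • (innerSL ℝ (v t x - V • e 2)).comp (fderiv ℝ (v t) x) :=
      (((h.vd t ht x hx).hasFDerivAt.sub_const (V • e 2)).norm_sq).fderiv
    rw [hg]
    simp only
    rw [hfd, fderiv_sub_const, inner_sub_right, inner_neg_right,
      real_inner_comm (gradient (p t) x), inner_gradient]
    generalize v t x - V • e 2 = w
    simp
    ring
  have hA : ∀ t ∈ Icc 0 τ, ∀ x ∈ Pipe, |g t x| ≤ (2 * Cw * (Cw * (|V| + Cw) + Cp) + Cw ^ 2) * D x := by
    intro t ht x hx
    rw [hgeq t ht x hx, abs_mul, abs_two]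
    have h1 := h.vb t ht x hx
    have h2 := h.accel ht hx
    have h3 := abs_real_inner_le_norm (v t x - V • e 2)
      (-(fderiv ℝ (v t) x (v t x)) - gradient (p t) x)
    have hWD := W_le_D x
    have hW := W_pos x
    have hDp := D_pos x
    calc 2 * |inner ℝ (v t x - V • e 2) (-(fderiv ℝ (v t) x (v t x)) - gradient (p t) x)|
        ≤ 2 * ((Cw * W x) * (Cw * (|V| + Cw) + Cp)) := by
          refine mul_le_mul_of_nonneg_left (h3.trans ?_) zero_le_two
          gcongr
      _ ≤ 2 * ((Cw * D x) * (Cw * (|V| + Cw) + Cp)) := by gcongr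
      _ ≤ _ := by
        have : 0 ≤ Cw ^ 2 * D x := by positivity
        nlinarith
  have hf : ∀ t ∈ Icc 0 τ, ∀ x ∈ Pipe, |‖v t x - V • e 2‖ ^ 2|
      ≤ (2 * Cw * (Cw * (|V| + Cw) + Cp) + Cw ^ 2) * D x := by
    intro t ht x hx
    have h1 := h.vb t ht x hx
    have hWD := W_le_D x
    have hW := W_pos x
    have hW1 := W_le_one x
    have hDp := D_pos x
    rw [abs_of_nonneg (sq_nonneg _)]
    calc ‖v t x - V • e 2‖ ^ 2 ≤ (Cw * W x) ^ 2 := by gcongr
      _ = Cw ^ 2 * (W x * W x) := by ring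
      _ ≤ Cw ^ 2 * (D x * 1) := by gcongr
      _ ≤ _ := by
        have : 0 ≤ 2 * Cw * (Cw * (|V| + Cw) + Cp) * D x := by positivity
        nlinarith
  have hder : ∀ t ∈ Icc 0 τ, ∀ x ∈ Pipe,
      HasDerivWithinAt (fun s => ‖v s x - V • e 2‖ ^ 2) (g t x) (Icc 0 τ) t := by
    intro t ht x hx
    rw [hgeq t ht x hx]
    exact ((h.euler t ht x hx).sub_const _).norm_sq
  have hm : ∀ t ∈ Icc 0 τ, AEStronglyMeasurable (fun x => ‖v t x - V • e 2‖ ^ 2) (volume.restrict Pipe) := by
    intro t ht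
    exact aesm_of_diff fun x hx => ((h.vd t ht x hx).sub_const _).norm_sq ℝ
  have up := grow (fun t x => ‖v t x - V • e 2‖ ^ 2) g _ 0 τ hτ hder hm (fun t ht => (hgi t ht).1.1) hf hA
    (fun t ht => (hgi t ht).2.ge)
  have dn := grow (fun t x => -‖v t x - V • e 2‖ ^ 2) (fun t x => -g t x) _ 0 τ hτ
    (fun t ht x hx => (hder t ht x hx).neg) (fun t ht => (hm t ht).neg)
    (fun t ht => (hgi t ht).1.1.neg)
    (fun t ht x hx => by rw [abs_neg]; exact hf t ht x hx)
    (fun t ht x hx => by rw [abs_neg]; exact hA t ht x hx)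
    (fun t ht => by rw [integral_neg, (hgi t ht).2]; simp)
  simp only [integral_neg] at dn
  linarith


/-- the rotation field about the axis -/
noncomputable def rot : E3 →L[ℝ] E3 :=
  (EuclideanSpace.proj 0 : E3 →L[ℝ] ℝ).smulRight (e 1) - (EuclideanSpace.proj 1 : E3 →L[ℝ] ℝ).smulRight (e 0)

theorem rot_apply (x : E3) : rot x = x 0 • e 1 - x 1 • e 0 := by simp [rot]

theorem rot_0 (x : E3) : rot x 0 = - x 1 := by simp [rot_apply, e]
theorem rot_1 (x : E3) : rot x 1 = x 0 := by simp [rot_apply, e]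
theorem rot_2 (x : E3) : rot x 2 = 0 := by simp [rot_apply, e]

theorem norm_rot_le (x : E3) : ‖rot x‖ ≤ ‖x‖ := by
  apply le_of_sq_le_sq _ (norm_nonneg _)
  rw [norm_sq_eq, norm_sq_eq, rot_0, rot_1, rot_2]
  nlinarith [sq_nonneg (x 2)]

theorem norm_rot_le_one {x : E3} (hx : x ∈ Pipe) : ‖rot x‖ ≤ 1 := by
  apply le_of_sq_le_sq _ zero_le_one
  rw [norm_sq_eq, rot_0, rot_1, rot_2]
  have : x 0 ^ 2 + x 1 ^ 2 < 1 := hx
  nlinarith

theorem opNorm_rot_le : ‖rot‖ ≤ 1 := by
  apply ContinuousLinearMap.opNorm_le_bound _ zero_le_one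
  intro x
  rw [one_mul]
  exact norm_rot_le x

theorem divergence_rot (x : E3) : divergence rot x = 0 := by
  unfold divergence
  rw [ContinuousLinearMap.fderiv, Fin.sum_univ_three, rot_0, rot_1, rot_2]
  simp [e]

/-- angular momentum density about the axis -/
noncomputable def ell (u : E3 → E3) (x : E3) : ℝ := x 0 * u x 1 - x 1 * u x 0

noncomputable def ell' (u : E3 → E3) (x : E3) : E3 →L[ℝ] ℝ :=
  (x 0 • ((EuclideanSpace.proj 1 : E3 →L[ℝ] ℝ).comp (fderiv ℝ u x)) + u x 1 • (EuclideanSpace.proj 0 : E3 →L[ℝ] ℝ))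
  - (x 1 • ((EuclideanSpace.proj 0 : E3 →L[ℝ] ℝ).comp (fderiv ℝ u x)) + u x 0 • (EuclideanSpace.proj 1 : E3 →L[ℝ] ℝ))

theorem hasFDerivAt_ell {u : E3 → E3} {x : E3} (hu : DifferentiableAt ℝ u x) :
    HasFDerivAt (ell u) (ell' u x) x := by
  have h0 : HasFDerivAt (fun y => u y 0) ((EuclideanSpace.proj 0 : E3 →L[ℝ] ℝ).comp (fderiv ℝ u x)) x :=
    (EuclideanSpace.proj 0 : E3 →L[ℝ] ℝ).hasFDerivAt.comp x hu.hasFDerivAt
  have h1 : HasFDerivAt (fun y => u y 1) ((EuclideanSpace.proj 1 : E3 →L[ℝ] ℝ).comp (fderiv ℝ u x)) x :=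
    (EuclideanSpace.proj 1 : E3 →L[ℝ] ℝ).hasFDerivAt.comp x hu.hasFDerivAt
  exact ((hasFDerivAt_coord 0 x).mul h1).sub ((hasFDerivAt_coord 1 x).mul h0)

theorem pipe_coord {x : E3} (hx : x ∈ Pipe) : |x 0| ≤ 1 ∧ |x 1| ≤ 1 := by
  have : x 0 ^ 2 + x 1 ^ 2 < 1 := hx
  constructor
  · rw [abs_le_one_iff_mul_self_le_one]; nlinarith [sq_nonneg (x 1)]
  · rw [abs_le_one_iff_mul_self_le_one]; nlinarith [sq_nonneg (x 0)]

theorem abs_ell_le (V : ℝ) {u : E3 → E3} {x : E3} (hx : x ∈ Pipe) : |ell u x| ≤ ‖u x - V • e 2‖ := by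
  apply abs_le_of_sq_le_sq _ (norm_nonneg _)
  rw [norm_sq_eq]
  have h0 : (u x - V • e 2) 0 = u x 0 := by simp [e]
  have h1 : (u x - V • e 2) 1 = u x 1 := by simp [e]
  rw [h0, h1]
  unfold ell
  have h2 : x 0 ^ 2 + x 1 ^ 2 < 1 := hx
  nlinarith [sq_nonneg (x 0 * u x 0 + x 1 * u x 1), sq_nonneg (u x 0), sq_nonneg (u x 1),
    sq_nonneg ((u x - V • e 2) 2), mul_nonneg (sub_nonneg.2 h2.le) (add_nonneg (sq_nonneg (u x 0)) (sq_nonneg (u x 1)))]

theorem norm_ell'_le (V : ℝ) {u : E3 → E3} {x : E3} {C : ℝ} (hx : x ∈ Pipe)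
    (h1 : ‖u x - V • e 2‖ ≤ C) (h2 : ‖fderiv ℝ u x‖ ≤ C) : ‖ell' u x‖ ≤ 4 * C := by
  have hC : 0 ≤ C := (norm_nonneg _).trans h1
  have hu0 : |u x 0| ≤ C := by
    have h0 : (u x - V • e 2) 0 = u x 0 := by simp [e]
    rw [← h0]; exact (coord_le_norm _ _).trans h1
  have hu1 : |u x 1| ≤ C := by
    have h0 : (u x - V • e 2) 1 = u x 1 := by simp [e]
    rw [← h0]; exact (coord_le_norm _ _).trans h1
  obtain ⟨hx0, hx1⟩ := pipe_coord hx
  apply ContinuousLinearMap.opNorm_le_bound _ (by positivity)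
  intro y
  have hy0 := coord_le_norm y 0
  have hy1 := coord_le_norm y 1
  have hd : ‖fderiv ℝ u x y‖ ≤ C * ‖y‖ := ((fderiv ℝ u x).le_opNorm y).trans (by gcongr)
  have hd0 := (coord_le_norm (fderiv ℝ u x y) 0).trans hd
  have hd1 := (coord_le_norm (fderiv ℝ u x y) 1).trans hd
  have heq : ell' u x y = x 0 * (fderiv ℝ u x y) 1 + u x 1 * y 0
      - (x 1 * (fderiv ℝ u x y) 0 + u x 0 * y 1) := by simp [ell']
  rw [heq, Real.norm_eq_abs]
  have a1 : |x 0 * (fderiv ℝ u x y) 1| ≤ 1 * (C * ‖y‖) := by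
    rw [abs_mul]; gcongr
  have a2 : |x 1 * (fderiv ℝ u x y) 0| ≤ 1 * (C * ‖y‖) := by
    rw [abs_mul]; gcongr
  have a3 : |u x 1 * y 0| ≤ C * ‖y‖ := by rw [abs_mul]; gcongr
  have a4 : |u x 0 * y 1| ≤ C * ‖y‖ := by rw [abs_mul]; gcongr
  refine (abs_sub _ _).trans ?_
  have := abs_add_le (x 0 * (fderiv ℝ u x y) 1) (u x 1 * y 0)
  have := abs_add_le (x 1 * (fderiv ℝ u x y) 0) (u x 0 * y 1)
  linarith

theorem hasFDerivAt_chi {χ χ' : ℝ → ℝ} (hχ : ∀ z, HasDerivAt χ (χ' z) z) (x : E3) :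
    HasFDerivAt (fun y : E3 => χ (y 2)) (χ' (x 2) • (EuclideanSpace.proj 2 : E3 →L[ℝ] ℝ)) x :=
  (hχ (x 2)).comp_hasFDerivAt x (hasFDerivAt_coord 2 x)

theorem norm_proj_le (i : Fin 3) : ‖(EuclideanSpace.proj i : E3 →L[ℝ] ℝ)‖ ≤ 1 := by
  apply ContinuousLinearMap.opNorm_le_bound _ zero_le_one
  intro x
  rw [one_mul]
  exact coord_le_norm x i

/-- the decay class of weights -/
structure Wt (χ χ' : ℝ → ℝ) (A : ℝ) : Prop where
  der : ∀ z, HasDerivAt χ (χ' z) z
  cont : Continuous χ'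
  b : ∀ z, |χ z| ≤ A * ((1 + z ^ 2) ^ 3)⁻¹
  b' : ∀ z, |χ' z| ≤ A * ((1 + z ^ 2) ^ 3)⁻¹

theorem Wt.A_nonneg {χ χ' : ℝ → ℝ} {A : ℝ} (hw : Wt χ χ' A) : 0 ≤ A := by
  have := (abs_nonneg _).trans (hw.b 0)
  simpa using this

theorem inv3_le_one (z : ℝ) : ((1 + z ^ 2) ^ 3)⁻¹ ≤ 1 := by
  apply inv_le_one_of_one_le₀
  have : 1 ≤ 1 + z ^ 2 := by nlinarith [sq_nonneg z]
  exact one_le_pow₀ this

theorem inv3_mul (x : E3) : ((1 + x 2 ^ 2) ^ 3)⁻¹ * (1 + x 2 ^ 2) = D x := by
  unfold D
  have : 1 + x 2 ^ 2 ≠ 0 := by positivity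
  field_simp

theorem inv3_le_D (x : E3) : ((1 + x 2 ^ 2) ^ 3)⁻¹ ≤ D x := by
  rw [← inv3_mul]
  have h := one_le_z x
  have : 0 < ((1 + x 2 ^ 2) ^ 3)⁻¹ := by positivity
  nlinarith

theorem Sol.transport_pieces (h : Sol V Cw Cp τ v p) {χ χ' : ℝ → ℝ} {A : ℝ} (hw : Wt χ χ' A)
    {t : ℝ} (ht : t ∈ Icc 0 τ) :
    (IntegrableOn (fun x => fderiv ℝ (fun y => χ (y 2) * ell (v t) y) x (v t x)) Pipe ∧
      ∫ x in Pipe, fderiv ℝ (fun y => χ (y 2) * ell (v t) y) x (v t x) = 0) ∧
    (IntegrableOn (fun x => fderiv ℝ (fun y => χ (y 2) * (p t y - p t 0)) x (rot x)) Pipe ∧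
      ∫ x in Pipe, fderiv ℝ (fun y => χ (y 2) * (p t y - p t 0)) x (rot x) = 0) := by
  have hCw := h.hCw
  have hCp := h.hCp
  have hVa := abs_nonneg V
  have hA := hw.A_nonneg
  have hχ1 : ∀ z, |χ z| ≤ A := fun z => (hw.b z).trans (by have := inv3_le_one z; nlinarith)
  have hχ1' : ∀ z, |χ' z| ≤ A := fun z => (hw.b' z).trans (by have := inv3_le_one z; nlinarith)
  constructor
  · have hde : ∀ x ∈ Pipe, HasFDerivAt (fun y => χ (y 2) * ell (v t) y)
        (χ (x 2) • ell' (v t) x + ell (v t) x • (χ' (x 2) • (EuclideanSpace.proj 2 : E3 →L[ℝ] ℝ))) x :=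
      fun x hx => (hasFDerivAt_chi hw.der x).mul (hasFDerivAt_ell (h.vd t ht x hx))
    have hell : ∀ x ∈ Pipe, |ell (v t) x| ≤ Cw * W x := fun x hx =>
      (abs_ell_le V hx).trans (h.vb t ht x hx)
    apply div_smul_zero _ (v t) (5 * A * Cw * (|V| + Cw) + A * Cw * Cw) (by positivity)
    · exact fun x hx => (hde x hx).differentiableAt
    · exact h.vd t ht
    · exact h.div t ht
    · intro x hx
      have hW := W_pos x
      have hDp := (D_pos x).le
      have hWD := W_le_D x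
      rw [abs_mul]
      calc |χ (x 2)| * |ell (v t) x| * ‖v t x‖ ≤ A * (Cw * W x) * (|V| + Cw) := by
            have h1 := hχ1 (x 2)
            have h2 := hell x hx
            have h3 := h.vn ht hx
            gcongr
        _ ≤ A * (Cw * D x) * (|V| + Cw) := by gcongr
        _ ≤ _ := by
          have : 0 ≤ A * Cw * (|V| + Cw) * D x := by positivity
          have : 0 ≤ A * Cw * Cw * D x := by positivity
          nlinarith
    · intro x hx
      have hW := W_pos x
      have hDp := (D_pos x).le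
      have hWD := W_le_D x
      have hW1 := W_le_one x
      rw [abs_mul]
      calc |χ (x 2)| * |ell (v t) x| * ‖fderiv ℝ (v t) x‖ ≤ A * (Cw * W x) * (Cw * W x) := by
            have h1 := hχ1 (x 2)
            have h2 := hell x hx
            have h3 := h.dvb t ht x hx
            gcongr
        _ ≤ A * (Cw * D x) * (Cw * 1) := by gcongr
        _ ≤ _ := by
          have : 0 ≤ A * Cw * (|V| + Cw) * D x := by positivity
          nlinarith
    · intro x hx
      have hW := W_pos x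
      have hDp := (D_pos x).le
      have hWD := W_le_D x
      rw [(hde x hx).fderiv]
      have n1 : ‖χ (x 2) • ell' (v t) x + ell (v t) x • (χ' (x 2) • (EuclideanSpace.proj 2 : E3 →L[ℝ] ℝ))‖
          ≤ 5 * A * (Cw * W x) := by
        refine (norm_add_le _ _).trans ?_
        rw [norm_smul, norm_smul, norm_smul]
        simp only [Real.norm_eq_abs]
        have h1 := hχ1 (x 2)
        have h2 := hell x hx
        have h3 := norm_ell'_le V hx (h.vb t ht x hx) (h.dvb t ht x hx)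
        have h4 := hχ1' (x 2)
        have h5 := norm_proj_le 2
        calc |χ (x 2)| * ‖ell' (v t) x‖ + |ell (v t) x| * (|χ' (x 2)| * ‖(EuclideanSpace.proj 2 : E3 →L[ℝ] ℝ)‖)
            ≤ A * (4 * (Cw * W x)) + (Cw * W x) * (A * 1) := by gcongr
          _ = _ := by ring
      calc _ ≤ (5 * A * (Cw * W x)) * (|V| + Cw) := by
            have h3 := h.vn ht hx
            gcongr
        _ ≤ (5 * A * (Cw * D x)) * (|V| + Cw) := by gcongr
        _ ≤ _ := by
          have : 0 ≤ A * Cw * Cw * D x := by positivity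
          nlinarith
    · intro x hx
      have hW := W_pos x
      have hDp := (D_pos x).le
      have hWD := W_le_D x
      have hW1 := W_le_one x
      have hs := (mem_pipe.1 hx).le
      rw [abs_mul]
      calc |χ (x 2)| * |ell (v t) x| * |x 0 * v t x 0 + x 1 * v t x 1|
          ≤ A * (Cw * W x) * (Cw * sig x * W x) := by
            have h1 := hχ1 (x 2)
            have h2 := hell x hx
            have h3 := h.tang t ht x hx
            gcongr
        _ ≤ A * (Cw * 1) * (Cw * sig x * D x) := by gcongr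
        _ ≤ _ := by
          have : 0 ≤ A * Cw * (|V| + Cw) * sig x * D x := by positivity
          nlinarith
  · have hde : ∀ x ∈ Pipe, HasFDerivAt (fun y => χ (y 2) * (p t y - p t 0))
        (χ (x 2) • fderiv ℝ (p t) x + (p t x - p t 0) • (χ' (x 2) • (EuclideanSpace.proj 2 : E3 →L[ℝ] ℝ))) x :=
      fun x hx => (hasFDerivAt_chi hw.der x).mul ((h.pd t ht x hx).hasFDerivAt.sub_const _)
    have hpg := fun x hx => p_growth (h.pd t ht) (h.pb t ht) x hx
    have hcp : ∀ x ∈ Pipe, |χ (x 2) * (p t x - p t 0)| ≤ A * Cp * D x := by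
      intro x hx
      rw [abs_mul, ← inv3_mul x]
      calc |χ (x 2)| * |p t x - p t 0| ≤ (A * ((1 + x 2 ^ 2) ^ 3)⁻¹) * (Cp * (1 + x 2 ^ 2)) := by
            have h1 := hw.b (x 2)
            have h2 := hpg x hx
            gcongr
        _ = _ := by ring
    apply div_smul_zero _ rot (2 * A * Cp) (by positivity)
    · exact fun x hx => (hde x hx).differentiableAt
    · exact fun x hx => rot.differentiableAt
    · exact fun x hx => divergence_rot x
    · intro x hx
      have hDp := (D_pos x).le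
      calc |χ (x 2) * (p t x - p t 0)| * ‖rot x‖ ≤ (A * Cp * D x) * 1 := by
            have h1 := hcp x hx
            have h2 := norm_rot_le_one hx
            gcongr
        _ ≤ _ := by
          have : 0 ≤ A * Cp * D x := by positivity
          nlinarith
    · intro x hx
      have hDp := (D_pos x).le
      rw [ContinuousLinearMap.fderiv]
      calc |χ (x 2) * (p t x - p t 0)| * ‖rot‖ ≤ (A * Cp * D x) * 1 := by
            have h1 := hcp x hx
            have h2 := opNorm_rot_le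
            gcongr
        _ ≤ _ := by
          have : 0 ≤ A * Cp * D x := by positivity
          nlinarith
    · intro x hx
      have hDp := (D_pos x).le
      rw [(hde x hx).fderiv]
      have n1 : ‖χ (x 2) • fderiv ℝ (p t) x + (p t x - p t 0) • (χ' (x 2) • (EuclideanSpace.proj 2 : E3 →L[ℝ] ℝ))‖
          ≤ 2 * A * Cp * D x := by
        refine (norm_add_le _ _).trans ?_
        rw [norm_smul, norm_smul, norm_smul]
        simp only [Real.norm_eq_abs]
        have h1 := hw.b (x 2)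
        have h2 := hpg x hx
        have h3 := h.pb t ht x hx
        have h4 := hw.b' (x 2)
        have h5 := norm_proj_le 2
        calc |χ (x 2)| * ‖fderiv ℝ (p t) x‖ + |p t x - p t 0| * (|χ' (x 2)| * ‖(EuclideanSpace.proj 2 : E3 →L[ℝ] ℝ)‖)
            ≤ (A * ((1 + x 2 ^ 2) ^ 3)⁻¹) * Cp + (Cp * (1 + x 2 ^ 2)) * ((A * ((1 + x 2 ^ 2) ^ 3)⁻¹) * 1) := by gcongr
          _ = A * Cp * ((1 + x 2 ^ 2) ^ 3)⁻¹ + A * Cp * (((1 + x 2 ^ 2) ^ 3)⁻¹ * (1 + x 2 ^ 2)) := by ring
          _ ≤ A * Cp * D x + A * Cp * D x := by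
            rw [inv3_mul]
            have := inv3_le_D x
            gcongr
          _ = _ := by ring
      calc _ ≤ (2 * A * Cp * D x) * 1 := by
            have h3 := norm_rot_le_one hx
            gcongr
        _ = _ := by ring
    · intro x hx
      have hDp := (D_pos x).le
      have hs := (mem_pipe.1 hx).le
      rw [rot_0, rot_1]
      have : x 0 * -x 1 + x 1 * x 0 = 0 := by ring
      rw [this, abs_zero, mul_zero]
      positivity


theorem Sol.transport (h : Sol V Cw Cp τ v p) {χ χ' : ℝ → ℝ} {A : ℝ} (hw : Wt χ χ' A) (c : ℝ)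
    (hc : ∀ t ∈ Icc 0 τ, c ≤ ∫ x in Pipe, χ' (x 2) * v t x 2 * ell (v t) x) :
    c * τ ≤ (∫ x in Pipe, χ (x 2) * ell (v τ) x) - ∫ x in Pipe, χ (x 2) * ell (v 0) x := by
  have hCw := h.hCw
  have hCp := h.hCp
  have hVa := abs_nonneg V
  have hA := hw.A_nonneg
  have hχ1 : ∀ z, |χ z| ≤ A := fun z => (hw.b z).trans (by have := inv3_le_one z; nlinarith)
  have hχ1' : ∀ z, |χ' z| ≤ A := fun z => (hw.b' z).trans (by have := inv3_le_one z; nlinarith)
  have hell : ∀ t ∈ Icc 0 τ, ∀ x ∈ Pipe, |ell (v t) x| ≤ Cw * W x := fun t ht x hx =>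
    (abs_ell_le V hx).trans (h.vb t ht x hx)
  have hv2 : ∀ t ∈ Icc 0 τ, ∀ x ∈ Pipe, |v t x 2| ≤ |V| + Cw := fun t ht x hx =>
    (coord_le_norm _ _).trans (h.vn ht hx)
  have i0 : ∀ t ∈ Icc 0 τ, IntegrableOn (fun x => χ' (x 2) * v t x 2 * ell (v t) x) Pipe := by
    intro t ht
    apply integrableOn_of_bound (C := A * (|V| + Cw) * Cw)
    · have m1 : Continuous (fun x : E3 => χ' (x 2)) := hw.cont.comp (by fun_prop)
      have m2 : AEStronglyMeasurable (fun x => v t x 2) (volume.restrict Pipe) :=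
        aesm_of_diff fun x hx => (EuclideanSpace.proj 2 : E3 →L[ℝ] ℝ).differentiableAt.comp x (h.vd t ht x hx)
      have m3 : AEStronglyMeasurable (ell (v t)) (volume.restrict Pipe) :=
        aesm_of_diff fun x hx => (hasFDerivAt_ell (h.vd t ht x hx)).differentiableAt
      exact (m1.aestronglyMeasurable.mul m2).mul m3
    · intro x hx
      have hW := W_pos x
      have hWD := W_le_D x
      rw [abs_mul, abs_mul]
      calc |χ' (x 2)| * |v t x 2| * |ell (v t) x| ≤ A * (|V| + Cw) * (Cw * W x) := by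
            have h1 := hχ1' (x 2)
            have h2 := hell t ht x hx
            have h3 := hv2 t ht x hx
            gcongr
        _ ≤ A * (|V| + Cw) * (Cw * D x) := by gcongr
        _ = _ := by ring
  set g : ℝ → E3 → ℝ := fun t x => χ' (x 2) * v t x 2 * ell (v t) x
    - fderiv ℝ (fun y => χ (y 2) * ell (v t) y) x (v t x)
    - fderiv ℝ (fun y => χ (y 2) * (p t y - p t 0)) x (rot x) with hg
  have hgi : ∀ t ∈ Icc 0 τ, IntegrableOn (g t) Pipe ∧
      ∫ x in Pipe, g t x = ∫ x in Pipe, χ' (x 2) * v t x 2 * ell (v t) x := by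
    intro t ht
    obtain ⟨⟨i1, z1⟩, ⟨i2, z2⟩⟩ := h.transport_pieces hw ht
    constructor
    · exact ((i0 t ht).sub i1).sub i2
    · rw [hg]
      simp only
      have e1 := integral_sub ((i0 t ht).sub i1) i2
      simp only [Pi.sub_apply] at e1
      rw [e1, integral_sub (i0 t ht) i1, z1, z2]
      simp
  have hgeq : ∀ t ∈ Icc 0 τ, ∀ x ∈ Pipe, g t x = χ (x 2) *
      (x 0 * (-(fderiv ℝ (v t) x (v t x)) - gradient (p t) x) 1
        - x 1 * (-(fderiv ℝ (v t) x (v t x)) - gradient (p t) x) 0) := by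
    intro t ht x hx
    have hde1 : HasFDerivAt (fun y => χ (y 2) * ell (v t) y)
        (χ (x 2) • ell' (v t) x + ell (v t) x • (χ' (x 2) • (EuclideanSpace.proj 2 : E3 →L[ℝ] ℝ))) x :=
      (hasFDerivAt_chi hw.der x).mul (hasFDerivAt_ell (h.vd t ht x hx))
    have hde2 : HasFDerivAt (fun y => χ (y 2) * (p t y - p t 0))
        (χ (x 2) • fderiv ℝ (p t) x + (p t x - p t 0) • (χ' (x 2) • (EuclideanSpace.proj 2 : E3 →L[ℝ] ℝ))) x :=
      (hasFDerivAt_chi hw.der x).mul ((h.pd t ht x hx).hasFDerivAt.sub_const _)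
    have hgr : ∀ i : Fin 3, (gradient (p t) x) i = fderiv ℝ (p t) x (e i) := by
      intro i
      rw [← inner_gradient, e, EuclideanSpace.inner_single_right, one_mul]
      rfl
    have hrot : fderiv ℝ (p t) x (rot x) = x 0 * fderiv ℝ (p t) x (e 1) - x 1 * fderiv ℝ (p t) x (e 0) := by
      rw [rot_apply, map_sub, map_smul, map_smul]
      simp
    rw [hg]
    simp only
    rw [hde1.fderiv, hde2.fderiv]
    simp only [add_apply, smul_apply, hrot,
      PiLp.sub_apply, PiLp.neg_apply, hgr, smul_eq_mul]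
    have h2 : (EuclideanSpace.proj 2 : E3 →L[ℝ] ℝ) (rot x) = 0 := rot_2 x
    have h3 : (EuclideanSpace.proj 2 : E3 →L[ℝ] ℝ) (v t x) = v t x 2 := rfl
    have h4 : ell' (v t) x (v t x) = x 0 * (fderiv ℝ (v t) x (v t x)) 1 + v t x 1 * v t x 0
      - (x 1 * (fderiv ℝ (v t) x (v t x)) 0 + v t x 0 * v t x 1) := by simp [ell']
    rw [h2, h3, h4]
    ring
  have hbd : ∀ t ∈ Icc 0 τ, ∀ x ∈ Pipe, |g t x| ≤ (A * (2 * (Cw * (|V| + Cw) + Cp)) + A * Cw) * D x := by
    intro t ht x hx
    rw [hgeq t ht x hx, abs_mul]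
    have hac := h.accel ht hx
    have h0 := (coord_le_norm (-(fderiv ℝ (v t) x (v t x)) - gradient (p t) x) 0).trans hac
    have h1 := (coord_le_norm (-(fderiv ℝ (v t) x (v t x)) - gradient (p t) x) 1).trans hac
    obtain ⟨hx0, hx1⟩ := pipe_coord hx
    have hDp := (D_pos x).le
    have hb := (hw.b (x 2)).trans (mul_le_mul_of_nonneg_left (inv3_le_D x) hA)
    have h3 : |x 0 * (-(fderiv ℝ (v t) x (v t x)) - gradient (p t) x) 1
        - x 1 * (-(fderiv ℝ (v t) x (v t x)) - gradient (p t) x) 0| ≤ 2 * (Cw * (|V| + Cw) + Cp) := by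
      refine (abs_sub _ _).trans ?_
      rw [abs_mul, abs_mul]
      calc _ ≤ 1 * (Cw * (|V| + Cw) + Cp) + 1 * (Cw * (|V| + Cw) + Cp) := by gcongr
        _ = _ := by ring
    calc _ ≤ (A * D x) * (2 * (Cw * (|V| + Cw) + Cp)) := by gcongr
      _ ≤ _ := by
        have : 0 ≤ A * Cw * D x := by positivity
        nlinarith
  have hf : ∀ t ∈ Icc 0 τ, ∀ x ∈ Pipe, |χ (x 2) * ell (v t) x|
      ≤ (A * (2 * (Cw * (|V| + Cw) + Cp)) + A * Cw) * D x := by
    intro t ht x hx
    have hW := W_pos x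
    have hWD := W_le_D x
    have hDp := (D_pos x).le
    rw [abs_mul]
    calc |χ (x 2)| * |ell (v t) x| ≤ A * (Cw * W x) := by
          have h1 := hχ1 (x 2)
          have h2 := hell t ht x hx
          gcongr
      _ ≤ A * (Cw * D x) := by gcongr
      _ ≤ _ := by
        have : 0 ≤ A * (2 * (Cw * (|V| + Cw) + Cp)) * D x := by positivity
        nlinarith
  have hder : ∀ t ∈ Icc 0 τ, ∀ x ∈ Pipe,
      HasDerivWithinAt (fun s => χ (x 2) * ell (v s) x) (g t x) (Icc 0 τ) t := by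
    intro t ht x hx
    rw [hgeq t ht x hx]
    have he := h.euler t ht x hx
    have hc : ∀ i : Fin 3, HasDerivWithinAt (fun s => v s x i)
        ((-(fderiv ℝ (v t) x (v t x)) - gradient (p t) x) i) (Icc 0 τ) t := by
      intro i
      exact (EuclideanSpace.proj i : E3 →L[ℝ] ℝ).hasFDerivAt.comp_hasDerivWithinAt t he
    exact (((hc 1).const_mul (x 0)).sub ((hc 0).const_mul (x 1))).const_mul (χ (x 2))
  have hm : ∀ t ∈ Icc 0 τ, AEStronglyMeasurable (fun x => χ (x 2) * ell (v t) x) (volume.restrict Pipe) := by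
    intro t ht
    apply aesm_of_diff
    intro x hx
    exact ((hasFDerivAt_chi hw.der x).mul (hasFDerivAt_ell (h.vd t ht x hx))).differentiableAt
  exact grow (fun t x => χ (x 2) * ell (v t) x) g _ c τ h.hτ hder hm (fun t ht => (hgi t ht).1.1) hf hbd
    (fun t ht => by rw [(hgi t ht).2]; exact hc t ht)


theorem Sol.restrict (h : Sol V Cw Cp τ v p) {t : ℝ} (ht : t ∈ Icc 0 τ) : Sol V Cw Cp t v p := by
  have hs : Icc 0 t ⊆ Icc 0 τ := Icc_subset_Icc_right ht.2
  exact ⟨ht.1, h.hCw, h.hCp, fun s hs' => h.vd s (hs hs'), fun s hs' => h.vb s (hs hs'),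
    fun s hs' => h.dvb s (hs hs'), fun s hs' => h.div s (hs hs'), fun s hs' => h.tang s (hs hs'),
    fun s hs' => h.pd s (hs hs'), fun s hs' => h.pb s (hs hs'),
    fun s hs' x hx => (h.euler s (hs hs') x hx).mono hs⟩

end energy

theorem inv_scale {ε : ℝ} (h0 : 0 < ε) (h1 : ε ≤ 1) (z : ℝ) :
    ((1 + ε * z ^ 2) ^ 3)⁻¹ ≤ (ε ^ 3)⁻¹ * ((1 + z ^ 2) ^ 3)⁻¹ := by
  rw [← mul_inv, ← mul_pow]
  have hz := sq_nonneg z
  gcongr
  nlinarith

theorem Wt_chi {ε : ℝ} (h0 : 0 < ε) (h1 : ε ≤ 1) :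
    Wt (fun z => ((1 + ε * z ^ 2) ^ 4)⁻¹) (fun z => -(8 * ε * z) * ((1 + ε * z ^ 2) ^ 5)⁻¹) (8 * (ε ^ 4)⁻¹) := by
  have hpos : ∀ z : ℝ, 0 < 1 + ε * z ^ 2 := fun z => by positivity
  have he4 : (ε ^ 3)⁻¹ ≤ (ε ^ 4)⁻¹ := by
    gcongr 1
    · exact pow_le_pow_of_le_one h0.le h1 (by norm_num)
  have he : 0 < (ε ^ 4)⁻¹ := by positivity
  constructor
  · intro z
    have hz := (hpos z).ne'
    have d1 : HasDerivAt (fun z : ℝ => 1 + ε * z ^ 2) (ε * (2 * z)) z := by
      have : HasDerivAt (fun z : ℝ => z ^ 2) (2 * z) z := by simpa using hasDerivAt_pow 2 z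
      exact (this.const_mul ε).const_add 1
    have d2 := (d1.pow 4).inv (pow_ne_zero 4 hz)
    refine d2.congr_deriv ?_
    simp only [Pi.pow_apply]
    field_simp
    ring
  · refine Continuous.mul (by fun_prop) (Continuous.inv₀ (by fun_prop) fun z => ?_)
    have := hpos z; positivity
  · intro z
    have hz := hpos z
    have hz1 : 1 ≤ 1 + ε * z ^ 2 := by nlinarith [sq_nonneg z]
    rw [abs_of_pos (by positivity)]
    calc ((1 + ε * z ^ 2) ^ 4)⁻¹ ≤ ((1 + ε * z ^ 2) ^ 3)⁻¹ := by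
          gcongr 1
          exact pow_le_pow_right₀ hz1 (by norm_num)
      _ ≤ (ε ^ 3)⁻¹ * ((1 + z ^ 2) ^ 3)⁻¹ := inv_scale h0 h1 z
      _ ≤ (8 * (ε ^ 4)⁻¹) * ((1 + z ^ 2) ^ 3)⁻¹ := by
          gcongr
          linarith
  · intro z
    have hz := hpos z
    have hz1 : 1 ≤ 1 + ε * z ^ 2 := by nlinarith [sq_nonneg z]
    have ha : ε * |z| ≤ 1 + ε * z ^ 2 := by
      have : |z| ^ 2 = z ^ 2 := sq_abs z
      nlinarith [sq_nonneg (|z| - 1), abs_nonneg z]
    rw [abs_mul, abs_neg, abs_mul, abs_of_pos (by positivity : 0 < 8 * ε),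
      abs_of_pos (by positivity : 0 < ((1 + ε * z ^ 2) ^ 5)⁻¹)]
    calc 8 * ε * |z| * ((1 + ε * z ^ 2) ^ 5)⁻¹ = 8 * (ε * |z|) * ((1 + ε * z ^ 2) ^ 5)⁻¹ := by ring
      _ ≤ 8 * (1 + ε * z ^ 2) * ((1 + ε * z ^ 2) ^ 5)⁻¹ := by gcongr
      _ = 8 * ((1 + ε * z ^ 2) ^ 4)⁻¹ := by field_simp
      _ ≤ 8 * ((1 + ε * z ^ 2) ^ 3)⁻¹ := by
          gcongr 2
          exact pow_le_pow_right₀ hz1 (by norm_num)
      _ ≤ 8 * ((ε ^ 3)⁻¹ * ((1 + z ^ 2) ^ 3)⁻¹) := by gcongr; exact inv_scale h0 h1 z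
      _ ≤ 8 * ((ε ^ 4)⁻¹ * ((1 + z ^ 2) ^ 3)⁻¹) := by gcongr
      _ = _ := by ring

theorem Wt_g {ε : ℝ} (h0 : 0 < ε) (h1 : ε ≤ 1) :
    Wt (fun z => z * ((1 + ε * z ^ 2) ^ 4)⁻¹) (fun z => (1 - 7 * (ε * z ^ 2)) * ((1 + ε * z ^ 2) ^ 5)⁻¹)
      (8 * (ε ^ 4)⁻¹) := by
  have hpos : ∀ z : ℝ, 0 < 1 + ε * z ^ 2 := fun z => by positivity
  have he4 : (ε ^ 3)⁻¹ ≤ (ε ^ 4)⁻¹ := by
    gcongr 1
    · exact pow_le_pow_of_le_one h0.le h1 (by norm_num)
  have he : 0 < (ε ^ 4)⁻¹ := by positivity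
  constructor
  · intro z
    have hz := (hpos z).ne'
    have d1 : HasDerivAt (fun z : ℝ => 1 + ε * z ^ 2) (ε * (2 * z)) z := by
      have : HasDerivAt (fun z : ℝ => z ^ 2) (2 * z) z := by simpa using hasDerivAt_pow 2 z
      exact (this.const_mul ε).const_add 1
    have d2 := (d1.pow 4).inv (pow_ne_zero 4 hz)
    have d3 := (hasDerivAt_id z).mul d2
    refine d3.congr_deriv ?_
    simp only [Pi.pow_apply, id, Pi.inv_apply]
    field_simp
    ring
  · refine Continuous.mul (by fun_prop) (Continuous.inv₀ (by fun_prop) fun z => ?_)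
    have := hpos z; positivity
  · intro z
    have hz := hpos z
    have hz1 : 1 ≤ 1 + ε * z ^ 2 := by nlinarith [sq_nonneg z]
    have ha : ε * |z| ≤ 1 + ε * z ^ 2 := by
      have : |z| ^ 2 = z ^ 2 := sq_abs z
      nlinarith [sq_nonneg (|z| - 1), abs_nonneg z]
    rw [abs_mul, abs_of_pos (by positivity : 0 < ((1 + ε * z ^ 2) ^ 4)⁻¹)]
    calc |z| * ((1 + ε * z ^ 2) ^ 4)⁻¹ = ε⁻¹ * ((ε * |z|) * ((1 + ε * z ^ 2) ^ 4)⁻¹) := by field_simp
      _ ≤ ε⁻¹ * ((1 + ε * z ^ 2) * ((1 + ε * z ^ 2) ^ 4)⁻¹) := by gcongr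
      _ = ε⁻¹ * ((1 + ε * z ^ 2) ^ 3)⁻¹ := by field_simp
      _ ≤ ε⁻¹ * ((ε ^ 3)⁻¹ * ((1 + z ^ 2) ^ 3)⁻¹) := by gcongr; exact inv_scale h0 h1 z
      _ = (ε ^ 4)⁻¹ * ((1 + z ^ 2) ^ 3)⁻¹ := by field_simp
      _ ≤ _ := by
        have : 0 < ((1 + z ^ 2) ^ 3)⁻¹ := by positivity
        nlinarith
  · intro z
    have hz := hpos z
    have hz1 : 1 ≤ 1 + ε * z ^ 2 := by nlinarith [sq_nonneg z]
    have hu : 0 ≤ ε * z ^ 2 := by positivity
    have ha : |1 - 7 * (ε * z ^ 2)| ≤ 8 * (1 + ε * z ^ 2) := by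
      rw [abs_le]; constructor <;> linarith
    rw [abs_mul, abs_of_pos (by positivity : 0 < ((1 + ε * z ^ 2) ^ 5)⁻¹)]
    calc |1 - 7 * (ε * z ^ 2)| * ((1 + ε * z ^ 2) ^ 5)⁻¹
        ≤ 8 * (1 + ε * z ^ 2) * ((1 + ε * z ^ 2) ^ 5)⁻¹ := by gcongr
      _ = 8 * ((1 + ε * z ^ 2) ^ 4)⁻¹ := by field_simp
      _ ≤ 8 * ((1 + ε * z ^ 2) ^ 3)⁻¹ := by
          gcongr 2
          exact pow_le_pow_right₀ hz1 (by norm_num)
      _ ≤ 8 * ((ε ^ 3)⁻¹ * ((1 + z ^ 2) ^ 3)⁻¹) := by gcongr; exact inv_scale h0 h1 z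
      _ ≤ 8 * ((ε ^ 4)⁻¹ * ((1 + z ^ 2) ^ 3)⁻¹) := by gcongr
      _ = _ := by ring

theorem one_sub_inv4 {u : ℝ} (hu : 0 ≤ u) : |1 - ((1 + u) ^ 4)⁻¹| ≤ 4 * u := by
  have h1 : ((1 + u) ^ 4)⁻¹ ≤ 1 := inv_le_one_of_one_le₀ (one_le_pow₀ (by linarith))
  rw [abs_of_nonneg (by linarith)]
  have h2 : 1 - 4 * u ≤ ((1 + u) ^ 4)⁻¹ := by
    rw [← one_div, le_div_iff₀ (by positivity)]
    have : 0 ≤ 10 * u ^ 2 + 20 * u ^ 3 + 15 * u ^ 4 + 4 * u ^ 5 := by positivity
    nlinarith
  linarith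

theorem one_sub_g' {u : ℝ} (hu : 0 ≤ u) : |1 - (1 - 7 * u) * ((1 + u) ^ 5)⁻¹| ≤ 12 * u := by
  have h1 : (1 - 7 * u) * ((1 + u) ^ 5)⁻¹ ≤ 1 := by
    rw [← div_eq_mul_inv, div_le_one (by positivity)]
    have : 1 ≤ (1 + u) ^ 5 := one_le_pow₀ (by linarith)
    linarith
  rw [abs_of_nonneg (by linarith)]
  have h2 : 1 - 12 * u ≤ (1 - 7 * u) * ((1 + u) ^ 5)⁻¹ := by
    rw [← div_eq_mul_inv, le_div_iff₀ (by positivity)]
    have : 0 ≤ 50 * u ^ 2 + 110 * u ^ 3 + 115 * u ^ 4 + 59 * u ^ 5 + 12 * u ^ 6 := by positivity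
    nlinarith
  linarith

theorem abs_g'_le {u : ℝ} (hu : 0 ≤ u) : |(1 - 7 * u) * ((1 + u) ^ 5)⁻¹| ≤ 1 := by
  rw [abs_mul, abs_of_pos (by positivity : 0 < ((1 + u) ^ 5)⁻¹), ← div_eq_mul_inv, div_le_one (by positivity),
    abs_le]
  have h5 : 1 + 5 * u + 10 * u ^ 2 ≤ (1 + u) ^ 5 := by
    have : 0 ≤ 10 * u ^ 3 + 5 * u ^ 4 + u ^ 5 := by positivity
    nlinarith
  constructor
  · nlinarith [sq_nonneg (u - 1)]
  · nlinarith


noncomputable def ID : ℝ := ∫ x in Pipe, D x

theorem ID_nonneg : 0 ≤ ID := integral_nonneg fun x => (D_pos x).le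

/-- integral of a function bounded by a multiple of `D` -/
theorem abs_integral_le {f : E3 → ℝ} {C : ℝ} (hf : ∀ x ∈ Pipe, |f x| ≤ C * D x) :
    |∫ x in Pipe, f x| ≤ C * ID := by
  have h := norm_integral_le_of_norm_le (f := f) (μ := volume.restrict Pipe) (integrableOn_D.const_mul C)
    ((ae_restrict_iff' measurable_pipe).2 (ae_of_all _ fun x hx => hf x hx))
  rw [integral_const_mul] at h
  exact h

theorem abs_z_mul_W_le (x : E3) : |x 2| * W x ≤ D x := by
  refine le_trans ?_ (z1_mul_W_le x)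
  have := W_pos x
  gcongr
  have : |x 2| ^ 2 = x 2 ^ 2 := sq_abs _
  nlinarith [sq_nonneg (|x 2| - 1), abs_nonneg (x 2)]

theorem sq_z_mul_W_le (x : E3) : x 2 ^ 2 * W x ≤ D x := by
  refine le_trans ?_ (z1_mul_W_le x)
  have := W_pos x
  gcongr
  linarith

theorem cube_z_mul_W_le (x : E3) : |x 2| ^ 3 * W x ≤ D x := by
  refine le_trans ?_ (z_mul_W_le x)
  have := W_pos x
  gcongr
  have h : |x 2| ^ 2 = x 2 ^ 2 := sq_abs _
  rw [← h]
  have h0 := abs_nonneg (x 2)
  nlinarith [sq_nonneg (|x 2| - 1), mul_nonneg h0 (sq_nonneg (|x 2| - 1)), sq_nonneg (|x 2| ^ 2 - |x 2|)]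

section clock

variable {V Cw Cp τ : ℝ} {v : ℝ → E3 → E3} {p : ℝ → E3 → ℝ}

theorem Sol.ell_le (h : Sol V Cw Cp τ v p) {t : ℝ} (ht : t ∈ Icc 0 τ) {x : E3} (hx : x ∈ Pipe) :
    |ell (v t) x| ≤ Cw * W x :=
  (abs_ell_le V hx).trans (h.vb t ht x hx)

theorem Sol.ell_meas (h : Sol V Cw Cp τ v p) {t : ℝ} (ht : t ∈ Icc 0 τ) :
    AEStronglyMeasurable (ell (v t)) (volume.restrict Pipe) :=
  aesm_of_diff fun x hx => (hasFDerivAt_ell (h.vd t ht x hx)).differentiableAt

theorem Sol.ell_int (h : Sol V Cw Cp τ v p) {t : ℝ} (ht : t ∈ Icc 0 τ) {χ : ℝ → ℝ} (hχ : Continuous χ)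
    {A : ℝ} (hA : ∀ z, |χ z| ≤ A * (1 + z ^ 2)) : IntegrableOn (fun x => χ (x 2) * ell (v t) x) Pipe := by
  have hCw := h.hCw
  have hA0 : 0 ≤ A := by
    have := (abs_nonneg _).trans (hA 0)
    simpa using this
  apply integrableOn_of_bound (C := A * Cw)
  · have m1 : Continuous (fun x : E3 => χ (x 2)) := hχ.comp (by fun_prop)
    exact m1.aestronglyMeasurable.mul (h.ell_meas ht)
  · intro x hx
    have hW := W_pos x
    rw [abs_mul]
    calc |χ (x 2)| * |ell (v t) x| ≤ (A * (1 + x 2 ^ 2)) * (Cw * W x) := by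
          have h1 := hA (x 2)
          have h2 := h.ell_le ht hx
          gcongr
      _ = A * Cw * ((1 + x 2 ^ 2) * W x) := by ring
      _ ≤ _ := by have := z1_mul_W_le x; gcongr

/-- transport inequality with absolute values -/
theorem Sol.transport_abs (h : Sol V Cw Cp τ v p) {χ χ' : ℝ → ℝ} {A : ℝ} (hw : Wt χ χ' A) (c : ℝ)
    (hc : ∀ t ∈ Icc 0 τ, |∫ x in Pipe, χ' (x 2) * v t x 2 * ell (v t) x| ≤ c) :
    |(∫ x in Pipe, χ (x 2) * ell (v τ) x) - ∫ x in Pipe, χ (x 2) * ell (v 0) x| ≤ c * τ := by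
  have h1 := h.transport hw (-c) (fun t ht => (abs_le.1 (hc t ht)).1)
  have hw' : Wt (fun z => -χ z) (fun z => -χ' z) A :=
    ⟨fun z => (hw.der z).neg, hw.cont.neg, fun z => by rw [abs_neg]; exact hw.b z,
      fun z => by rw [abs_neg]; exact hw.b' z⟩
  have h2 := h.transport hw' (-c) (fun t ht => by
    simp only [neg_mul, integral_neg]
    exact neg_le_neg (abs_le.1 (hc t ht)).2)
  simp only [neg_mul, integral_neg] at h2
  rw [abs_le]
  constructor <;> linarith

/-- conservation of angular momentum about the axis -/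
theorem Sol.angular (h : Sol V Cw Cp τ v p) :
    ∫ x in Pipe, ell (v τ) x = ∫ x in Pipe, ell (v 0) x := by
  have hCw := h.hCw
  have hτ := h.hτ
  have hVa := abs_nonneg V
  have hI := ID_nonneg
  set K := 8 * (|V| + Cw) * Cw * ID * τ + 8 * Cw * ID with hK
  have hKn : 0 ≤ K := by positivity
  have key : ∀ ε : ℝ, 0 < ε → ε ≤ 1 →
      |(∫ x in Pipe, ell (v τ) x) - ∫ x in Pipe, ell (v 0) x| ≤ K * ε := by
    intro ε h0 h1
    have hw := Wt_chi h0 h1
    have htr := h.transport_abs hw (8 * (|V| + Cw) * Cw * ID * ε) (fun t ht => by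
      have : 8 * (|V| + Cw) * Cw * ID * ε = (8 * ε * (|V| + Cw) * Cw) * ID := by ring
      rw [this]
      apply abs_integral_le
      intro x hx
      have hW := W_pos x
      have hz := abs_z_mul_W_le x
      have hv2 : |v t x 2| ≤ |V| + Cw := (coord_le_norm _ _).trans (h.vn ht hx)
      have hl := h.ell_le ht hx
      have hi : |((1 + ε * x 2 ^ 2) ^ 5)⁻¹| ≤ 1 := by
        rw [abs_of_nonneg (by positivity)]
        exact inv_le_one_of_one_le₀ (one_le_pow₀ (by nlinarith [sq_nonneg (x 2)]))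
      rw [abs_mul, abs_mul, abs_mul, abs_neg, abs_mul, abs_of_pos (by positivity : 0 < 8 * ε)]
      calc 8 * ε * |x 2| * |((1 + ε * x 2 ^ 2) ^ 5)⁻¹| * |v t x 2| * |ell (v t) x|
          ≤ 8 * ε * |x 2| * 1 * (|V| + Cw) * (Cw * W x) := by gcongr
        _ = 8 * ε * (|V| + Cw) * Cw * (|x 2| * W x) := by ring
        _ ≤ _ := by gcongr)
    have happ : ∀ t ∈ Icc 0 τ, |(∫ x in Pipe, ell (v t) x)
        - ∫ x in Pipe, ((1 + ε * x 2 ^ 2) ^ 4)⁻¹ * ell (v t) x| ≤ 4 * Cw * ID * ε := by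
      intro t ht
      have i1 : IntegrableOn (ell (v t)) Pipe := by
        have := h.ell_int ht (χ := fun _ => 1) (A := 1) continuous_const (fun z => by
          rw [abs_one]; nlinarith [sq_nonneg z])
        simpa using this
      have i2 : IntegrableOn (fun x => ((1 + ε * x 2 ^ 2) ^ 4)⁻¹ * ell (v t) x) Pipe := by
        refine h.ell_int ht (χ := fun z => ((1 + ε * z ^ 2) ^ 4)⁻¹) (A := 1) ?_ (fun z => ?_)
        · refine Continuous.inv₀ (by fun_prop) fun z => ?_
          positivity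
        · rw [abs_of_nonneg (by positivity)]
          have : ((1 + ε * z ^ 2) ^ 4)⁻¹ ≤ 1 :=
            inv_le_one_of_one_le₀ (one_le_pow₀ (by nlinarith [sq_nonneg z]))
          nlinarith [sq_nonneg z]
      rw [← integral_sub i1 i2]
      have : 4 * Cw * ID * ε = (4 * ε * Cw) * ID := by ring
      rw [this]
      apply abs_integral_le
      intro x hx
      have hW := W_pos x
      have hl := h.ell_le ht hx
      have hz := sq_z_mul_W_le x
      have he : ell (v t) x - ((1 + ε * x 2 ^ 2) ^ 4)⁻¹ * ell (v t) x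
          = (1 - ((1 + ε * x 2 ^ 2) ^ 4)⁻¹) * ell (v t) x := by ring
      rw [he, abs_mul]
      have h4 := one_sub_inv4 (u := ε * x 2 ^ 2) (by positivity)
      calc |1 - ((1 + ε * x 2 ^ 2) ^ 4)⁻¹| * |ell (v t) x| ≤ (4 * (ε * x 2 ^ 2)) * (Cw * W x) := by gcongr
        _ = 4 * ε * Cw * (x 2 ^ 2 * W x) := by ring
        _ ≤ _ := by gcongr
    have a1 := happ τ (right_mem_Icc.2 hτ)
    have a2 := happ 0 (left_mem_Icc.2 hτ)
    rw [hK]
    rw [abs_le] at *
    constructor <;> linarith [a1.1, a1.2, a2.1, a2.2, htr.1, htr.2]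
  by_contra hne
  have hpos : 0 < |(∫ x in Pipe, ell (v τ) x) - ∫ x in Pipe, ell (v 0) x| := by
    rw [abs_pos, sub_ne_zero]; exact hne
  set d := |(∫ x in Pipe, ell (v τ) x) - ∫ x in Pipe, ell (v 0) x| with hd
  have hε : 0 < min 1 (d / (2 * (K + 1))) := by positivity
  have := key _ hε (min_le_left _ _)
  have h2 : K * min 1 (d / (2 * (K + 1))) ≤ K * (d / (2 * (K + 1))) := by
    gcongr
    exact min_le_right _ _
  have h3 : K * (d / (2 * (K + 1))) < d := by
    rw [mul_div_assoc', div_lt_iff₀ (by positivity)]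
    nlinarith
  linarith

/-- the clock: growth of the first axial moment of the angular momentum -/
theorem Sol.clock (h : Sol V Cw Cp τ v p) :
    (V * (∫ x in Pipe, ell (v 0) x) - (∫ x in Pipe, ‖v 0 x - V • e 2‖ ^ 2) / 2) * τ
      ≤ (∫ x in Pipe, x 2 * ell (v τ) x) - ∫ x in Pipe, x 2 * ell (v 0) x := by
  have hCw := h.hCw
  have hτ := h.hτ
  have hVa := abs_nonneg V
  have hI := ID_nonneg
  set c := V * (∫ x in Pipe, ell (v 0) x) - (∫ x in Pipe, ‖v 0 x - V • e 2‖ ^ 2) / 2 with hc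
  set K := 12 * |V| * Cw * ID * τ + 8 * Cw * ID with hK
  have hKn : 0 ≤ K := by positivity
  have key : ∀ ε : ℝ, 0 < ε → ε ≤ 1 →
      c * τ - K * ε ≤ (∫ x in Pipe, x 2 * ell (v τ) x) - ∫ x in Pipe, x 2 * ell (v 0) x := by
    intro ε h0 h1
    have hw := Wt_g h0 h1
    have hgc : Continuous (fun z : ℝ => (1 - 7 * (ε * z ^ 2)) * ((1 + ε * z ^ 2) ^ 5)⁻¹) := hw.cont
    have htr := h.transport hw (c - 12 * |V| * Cw * ID * ε) (fun t ht => by
      have hE := (h.restrict ht).energy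
      have hL := (h.restrict ht).angular
      have i1 : IntegrableOn (ell (v t)) Pipe := by
        have := h.ell_int ht (χ := fun _ => 1) (A := 1) continuous_const (fun z => by
          rw [abs_one]; nlinarith [sq_nonneg z])
        simpa using this
      have iE : IntegrableOn (fun x => ‖v t x - V • e 2‖ ^ 2) Pipe := by
        apply integrableOn_of_bound (C := Cw ^ 2)
        · exact aesm_of_diff fun x hx => ((h.vd t ht x hx).sub_const _).norm_sq ℝ
        · intro x hx
          have hW := W_pos x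
          have hWD := W_le_D x
          have hW1 := W_le_one x
          have h1 := h.vb t ht x hx
          rw [abs_of_nonneg (sq_nonneg _)]
          calc ‖v t x - V • e 2‖ ^ 2 ≤ (Cw * W x) ^ 2 := by gcongr
            _ = Cw ^ 2 * (W x * W x) := by ring
            _ ≤ Cw ^ 2 * (D x * 1) := by have := D_pos x; gcongr
            _ = _ := by ring
      have iG : IntegrableOn (fun x => (1 - 7 * (ε * x 2 ^ 2)) * ((1 + ε * x 2 ^ 2) ^ 5)⁻¹ * v t x 2
          * ell (v t) x) Pipe := by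
        apply integrableOn_of_bound (C := (|V| + Cw) * Cw)
        · have m1 : Continuous (fun x : E3 => (1 - 7 * (ε * x 2 ^ 2)) * ((1 + ε * x 2 ^ 2) ^ 5)⁻¹) :=
            hgc.comp (by fun_prop : Continuous fun x : E3 => x 2)
          have m2 : AEStronglyMeasurable (fun x => v t x 2) (volume.restrict Pipe) :=
            aesm_of_diff fun x hx => (EuclideanSpace.proj 2 : E3 →L[ℝ] ℝ).differentiableAt.comp x (h.vd t ht x hx)
          exact (m1.aestronglyMeasurable.mul m2).mul (h.ell_meas ht)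
        · intro x hx
          have hW := W_pos x
          have hWD := W_le_D x
          have hg1 := abs_g'_le (u := ε * x 2 ^ 2) (by positivity)
          have hv2 : |v t x 2| ≤ |V| + Cw := (coord_le_norm _ _).trans (h.vn ht hx)
          have hl := h.ell_le ht hx
          rw [abs_mul, abs_mul]
          calc _ ≤ 1 * (|V| + Cw) * (Cw * W x) := by gcongr
            _ ≤ 1 * (|V| + Cw) * (Cw * D x) := by gcongr
            _ = _ := by ring
      have hlow : ∫ x in Pipe, (V * ell (v t) x - (12 * ε * |V| * Cw) * D x - ‖v t x - V • e 2‖ ^ 2 / 2)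
          ≤ ∫ x in Pipe, (1 - 7 * (ε * x 2 ^ 2)) * ((1 + ε * x 2 ^ 2) ^ 5)⁻¹ * v t x 2 * ell (v t) x := by
        refine setIntegral_mono_on (((i1.const_mul V).sub (integrableOn_D.const_mul _)).sub (iE.div_const 2))
          iG measurable_pipe ?_
        intro x hx
        have hW := W_pos x
        have hl := h.ell_le ht hx
        have hz := sq_z_mul_W_le x
        have hg1 := abs_g'_le (u := ε * x 2 ^ 2) (by positivity)
        have hg2 := one_sub_g' (u := ε * x 2 ^ 2) (by positivity)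
        set G := (1 - 7 * (ε * x 2 ^ 2)) * ((1 + ε * x 2 ^ 2) ^ 5)⁻¹ with hG
        set w := v t x - V • e 2 with hw'
        have hw2 : v t x 2 = V + w 2 := by simp [hw', e]
        have hb1 : |V * (1 - G) * ell (v t) x| ≤ (12 * ε * |V| * Cw) * D x := by
          rw [abs_mul, abs_mul]
          calc |V| * |1 - G| * |ell (v t) x| ≤ |V| * (12 * (ε * x 2 ^ 2)) * (Cw * W x) := by gcongr
            _ = 12 * ε * |V| * Cw * (x 2 ^ 2 * W x) := by ring
            _ ≤ _ := by gcongr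
        have hb2 : |G * w 2 * ell (v t) x| ≤ ‖w‖ ^ 2 / 2 := by
          have hsq : ell (v t) x ^ 2 ≤ w 0 ^ 2 + w 1 ^ 2 := by
            have e0 : w 0 = v t x 0 := by simp [hw', e]
            have e1 : w 1 = v t x 1 := by simp [hw', e]
            have h2 : x 0 ^ 2 + x 1 ^ 2 < 1 := hx
            rw [e0, e1]
            unfold ell
            nlinarith [sq_nonneg (x 0 * v t x 0 + x 1 * v t x 1),
              mul_nonneg (sub_nonneg.2 h2.le) (add_nonneg (sq_nonneg (v t x 0)) (sq_nonneg (v t x 1)))]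
          rw [norm_sq_eq, abs_mul, abs_mul]
          have h3 : |w 2| * |ell (v t) x| ≤ (w 2 ^ 2 + ell (v t) x ^ 2) / 2 := by
            nlinarith [sq_nonneg (|w 2| - |ell (v t) x|), sq_abs (w 2), sq_abs (ell (v t) x)]
          calc |G| * |w 2| * |ell (v t) x| ≤ 1 * (|w 2| * |ell (v t) x|) := by
                rw [mul_assoc]; gcongr
            _ ≤ _ := by linarith
        have heq : G * v t x 2 * ell (v t) x = V * ell (v t) x - V * (1 - G) * ell (v t) x
            + G * w 2 * ell (v t) x := by rw [hw2]; ring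
        rw [heq]
        have := (abs_le.1 hb1).2
        have := (abs_le.1 hb2).1
        linarith
      have hcalc : ∫ x in Pipe, (V * ell (v t) x - (12 * ε * |V| * Cw) * D x - ‖v t x - V • e 2‖ ^ 2 / 2)
          = c - 12 * |V| * Cw * ID * ε := by
        have e1 := integral_sub ((i1.const_mul V).sub (integrableOn_D.const_mul (12 * ε * |V| * Cw)))
          (iE.div_const 2)
        have e2 := integral_sub (i1.const_mul V) (integrableOn_D.const_mul (12 * ε * |V| * Cw))
        simp only [Pi.sub_apply] at e1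
        rw [e1, e2, integral_const_mul, integral_const_mul, integral_div, hE, hL, hc]
        unfold ID
        ring
      rw [← hcalc]
      exact hlow)
    have happ : ∀ t ∈ Icc 0 τ, |(∫ x in Pipe, x 2 * ell (v t) x)
        - ∫ x in Pipe, x 2 * ((1 + ε * x 2 ^ 2) ^ 4)⁻¹ * ell (v t) x| ≤ 4 * Cw * ID * ε := by
      intro t ht
      have i1 : IntegrableOn (fun x => x 2 * ell (v t) x) Pipe :=
        h.ell_int ht (χ := fun z => z) (A := 1) continuous_id (fun z => by
          nlinarith [sq_abs z, sq_nonneg (|z| - 1), abs_nonneg z])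
      have i2 : IntegrableOn (fun x => x 2 * ((1 + ε * x 2 ^ 2) ^ 4)⁻¹ * ell (v t) x) Pipe := by
        refine h.ell_int ht (χ := fun z => z * ((1 + ε * z ^ 2) ^ 4)⁻¹) (A := 1) ?_ (fun z => ?_)
        · refine Continuous.mul continuous_id (Continuous.inv₀ (by fun_prop) fun z => ?_)
          positivity
        · rw [abs_mul, abs_of_nonneg (by positivity : 0 ≤ ((1 + ε * z ^ 2) ^ 4)⁻¹)]
          have h2 : ((1 + ε * z ^ 2) ^ 4)⁻¹ ≤ 1 :=
            inv_le_one_of_one_le₀ (one_le_pow₀ (by nlinarith [sq_nonneg z]))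
          calc |z| * ((1 + ε * z ^ 2) ^ 4)⁻¹ ≤ |z| * 1 := by gcongr
            _ ≤ _ := by nlinarith [sq_abs z, sq_nonneg (|z| - 1), abs_nonneg z]
      rw [← integral_sub i1 i2]
      have : 4 * Cw * ID * ε = (4 * ε * Cw) * ID := by ring
      rw [this]
      apply abs_integral_le
      intro x hx
      have hW := W_pos x
      have hl := h.ell_le ht hx
      have hz := cube_z_mul_W_le x
      have he : x 2 * ell (v t) x - x 2 * ((1 + ε * x 2 ^ 2) ^ 4)⁻¹ * ell (v t) x
          = x 2 * (1 - ((1 + ε * x 2 ^ 2) ^ 4)⁻¹) * ell (v t) x := by ring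
      rw [he, abs_mul, abs_mul]
      have h4 := one_sub_inv4 (u := ε * x 2 ^ 2) (by positivity)
      calc |x 2| * |1 - ((1 + ε * x 2 ^ 2) ^ 4)⁻¹| * |ell (v t) x|
          ≤ |x 2| * (4 * (ε * x 2 ^ 2)) * (Cw * W x) := by gcongr
        _ = 4 * ε * Cw * (|x 2| ^ 3 * W x) := by rw [← sq_abs (x 2)]; ring
        _ ≤ _ := by gcongr
    have a1 := happ τ (right_mem_Icc.2 hτ)
    have a2 := happ 0 (left_mem_Icc.2 hτ)
    rw [abs_le] at a1 a2
    have hexp : (c - 12 * |V| * Cw * ID * ε) * τ = c * τ - 12 * |V| * Cw * ID * τ * ε := by ring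
    rw [hexp] at htr
    rw [hK]
    linarith [a1.1, a1.2, a2.1, a2.2]
  by_contra hne
  push Not at hne
  set R := (∫ x in Pipe, x 2 * ell (v τ) x) - ∫ x in Pipe, x 2 * ell (v 0) x with hR
  set d := c * τ - R with hd
  have hdpos : 0 < d := by rw [hd]; linarith
  have hε : 0 < min 1 (d / (2 * (K + 1))) := by positivity
  have := key _ hε (min_le_left _ _)
  have h2 : K * min 1 (d / (2 * (K + 1))) ≤ K * (d / (2 * (K + 1))) := by
    gcongr
    exact min_le_right _ _
  have h3 : K * (d / (2 * (K + 1))) < d := by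
    rw [mul_div_assoc', div_lt_iff₀ (by positivity)]
    nlinarith
  linarith

end clock


theorem tang_bound {u : E3 → E3} {C : ℝ} (hC : 0 ≤ C) (hd : ∀ x ∈ Pipe, DifferentiableAt ℝ u x)
    (hb : ∀ x ∈ Pipe, ‖fderiv ℝ u x‖ ≤ C * W x) (ht : Impermeable u) {x : E3} (hx : x ∈ Pipe) :
    |x 0 * u x 0 + x 1 * u x 1| ≤ C * sig x * W x := by
  have hW := W_pos x
  have hs := mem_pipe.1 hx
  set r := Real.sqrt (x 0 ^ 2 + x 1 ^ 2) with hr
  have hr2 : r ^ 2 = x 0 ^ 2 + x 1 ^ 2 := Real.sq_sqrt (by positivity)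
  have hr0 : 0 ≤ r := Real.sqrt_nonneg _
  have hsig : sig x = 1 - r ^ 2 := by rw [hr2]; unfold sig; ring
  rcases eq_or_lt_of_le hr0 with h0 | h0
  · have h1 : x 0 = 0 := by nlinarith [sq_nonneg (x 0), sq_nonneg (x 1)]
    have h2 : x 1 = 0 := by nlinarith [sq_nonneg (x 0), sq_nonneg (x 1)]
    rw [h1, h2]
    simp only [zero_mul, add_zero, abs_zero]
    positivity
  have hr1 : r < 1 := by nlinarith
  set n0 := x 0 / r with hn0
  set n1 := x 1 / r with hn1
  have hn : n0 ^ 2 + n1 ^ 2 = 1 := by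
    rw [hn0, hn1]; field_simp; linarith
  set q : E3 := x 0 • e 0 + x 1 • e 1 with hq
  have q0 : q 0 = x 0 := by simp [hq, e]
  have q1 : q 1 = x 1 := by simp [hq, e]
  have q2 : q 2 = 0 := by simp [hq, e]
  have hqn : ‖q‖ = r := by
    rw [← sq_eq_sq₀ (norm_nonneg _) hr0, norm_sq_eq, q0, q1, q2, hr2]; ring
  set γ : ℝ → E3 := fun s => x + (s - 1) • q with hγ
  have g0 : ∀ s, γ s 0 = s * x 0 := fun s => by simp [hγ, q0]; ring
  have g1 : ∀ s, γ s 1 = s * x 1 := fun s => by simp [hγ, q1]; ring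
  have g2 : ∀ s, γ s 2 = x 2 := fun s => by simp [hγ, q2]
  have gp : ∀ s ∈ Ico 1 (1 / r), γ s ∈ Pipe := by
    intro s hs'
    have h1 : s * r < 1 := by rw [← lt_div_iff₀ h0]; exact hs'.2
    have h2 : 0 ≤ s * r := by have := hs'.1; positivity
    change γ s 0 ^ 2 + γ s 1 ^ 2 < 1
    rw [g0, g1]
    have : (s * x 0) ^ 2 + (s * x 1) ^ 2 = (s * r) ^ 2 := by rw [mul_pow, mul_pow, mul_pow, hr2]; ring
    rw [this]
    nlinarith
  set f : E3 → ℝ := fun y => n0 * u y 0 + n1 * u y 1 with hf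
  have hfd : ∀ y ∈ Pipe, HasFDerivAt f (n0 • ((EuclideanSpace.proj 0 : E3 →L[ℝ] ℝ).comp (fderiv ℝ u y))
      + n1 • ((EuclideanSpace.proj 1 : E3 →L[ℝ] ℝ).comp (fderiv ℝ u y))) y := by
    intro y hy
    have h0 : HasFDerivAt (fun y => u y 0) ((EuclideanSpace.proj 0 : E3 →L[ℝ] ℝ).comp (fderiv ℝ u y)) y :=
      (EuclideanSpace.proj 0 : E3 →L[ℝ] ℝ).hasFDerivAt.comp y (hd y hy).hasFDerivAt
    have h1 : HasFDerivAt (fun y => u y 1) ((EuclideanSpace.proj 1 : E3 →L[ℝ] ℝ).comp (fderiv ℝ u y)) y :=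
      (EuclideanSpace.proj 1 : E3 →L[ℝ] ℝ).hasFDerivAt.comp y (hd y hy).hasFDerivAt
    exact (h0.const_mul n0).add (h1.const_mul n1)
  set S : Set E3 := Pipe ∩ {y | y 2 = x 2} with hS
  have hSc : Convex ℝ S := by
    apply convex_pipe.inter
    intro y hy z hz a b _ _ hab
    rw [Set.mem_ofPred_eq] at *
    simp only [PiLp.add_apply, PiLp.smul_apply, smul_eq_mul, hy, hz]
    rw [← add_mul, hab, one_mul]
  have hbound : ∀ y ∈ S, ‖fderiv ℝ f y‖ ≤ C * W x := by
    intro y hy
    have hWy : W y = W x := by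
      have : y 2 = x 2 := hy.2
      unfold W; rw [this]
    rw [(hfd y hy.1).fderiv]
    apply ContinuousLinearMap.opNorm_le_bound _ (by positivity)
    intro z
    have hz : ‖fderiv ℝ u y z‖ ≤ C * W x * ‖z‖ := by
      refine ((fderiv ℝ u y).le_opNorm z).trans ?_
      rw [← hWy]
      have := hb y hy.1
      gcongr
    refine le_trans ?_ hz
    have he : (n0 • ((EuclideanSpace.proj 0 : E3 →L[ℝ] ℝ).comp (fderiv ℝ u y))
      + n1 • ((EuclideanSpace.proj 1 : E3 →L[ℝ] ℝ).comp (fderiv ℝ u y))) z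
        = n0 * (fderiv ℝ u y z) 0 + n1 * (fderiv ℝ u y z) 1 := by simp
    rw [he, Real.norm_eq_abs]
    apply abs_le_of_sq_le_sq _ (norm_nonneg _)
    rw [norm_sq_eq]
    set a := (fderiv ℝ u y z) 0
    set b := (fderiv ℝ u y z) 1
    nlinarith [sq_nonneg (n0 * b - n1 * a), sq_nonneg ((fderiv ℝ u y z) 2), hn]
  have hxS : x ∈ S := ⟨hx, rfl⟩
  have hmv : ∀ s ∈ Ico 1 (1 / r), |f (γ s) - f x| ≤ C * W x * (1 - r) := by
    intro s hs'
    have hγS : γ s ∈ S := ⟨gp s hs', g2 s⟩
    have h1 := hSc.norm_image_sub_le_of_norm_fderiv_le (fun y hy => (hfd y hy.1).differentiableAt) hbound hxS hγS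
    rw [Real.norm_eq_abs] at h1
    refine h1.trans ?_
    have h2 : ‖γ s - x‖ ≤ 1 - r := by
      have : γ s - x = (s - 1) • q := by simp [hγ]
      rw [this, norm_smul, hqn, Real.norm_eq_abs, abs_of_nonneg (by linarith [hs'.1])]
      have h1 : s * r < 1 := by rw [← lt_div_iff₀ h0]; exact hs'.2
      linarith
    have : 0 ≤ C * W x := by positivity
    gcongr
  have hlt : 1 < 1 / r := by rw [lt_div_iff₀ h0]; linarith
  have hev : ∀ᶠ s in 𝓝[<] (1 / r), s ∈ Ico 1 (1 / r) := by
    have := Ico_mem_nhdsLT hlt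
    exact this
  have hγb : γ (1 / r) 0 ^ 2 + γ (1 / r) 1 ^ 2 = 1 := by
    rw [g0, g1]
    have h3 : (1 / r * x 0) ^ 2 + (1 / r * x 1) ^ 2 = n0 ^ 2 + n1 ^ 2 := by rw [hn0, hn1]; ring
    rw [h3, hn]
  have hγt : Tendsto γ (𝓝[<] (1 / r)) (𝓝[Pipe] (γ (1 / r))) := by
    rw [tendsto_nhdsWithin_iff]
    constructor
    · have : Continuous γ := by rw [hγ]; fun_prop
      exact this.continuousAt.tendsto.mono_left nhdsWithin_le_nhds
    · filter_upwards [hev] with s hs' using gp s hs'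
  have hlim : Tendsto (fun s => f (γ s)) (𝓝[<] (1 / r)) (𝓝 0) := by
    have h1 := (ht _ hγb).comp hγt
    refine h1.congr fun s => ?_
    simp only [Function.comp, hf]
    rw [g0, g1, hn0, hn1]
    ring
  have hfin : |0 - f x| ≤ C * W x * (1 - r) := by
    have h1 : Tendsto (fun s => |f (γ s) - f x|) (𝓝[<] (1 / r)) (𝓝 |0 - f x|) :=
      (hlim.sub_const _).abs
    exact le_of_tendsto h1 (hev.mono hmv)
  rw [zero_sub, abs_neg] at hfin
  have he : x 0 * u x 0 + x 1 * u x 1 = r * f x := by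
    rw [hf]; simp only; rw [hn0, hn1]; field_simp
  rw [he, abs_mul, abs_of_pos h0, hsig]
  have hCW : 0 ≤ C * W x := by positivity
  calc r * |f x| ≤ r * (C * W x * (1 - r)) := by gcongr
    _ = C * W x * (1 - r) * r := by ring
    _ ≤ C * W x * (1 - r) * (1 + r) := by
      have : 0 ≤ C * W x * (1 - r) := mul_nonneg hCW (by linarith)
      nlinarith
    _ = _ := by ring


theorem HolderLE.nonneg {k m : ℕ} {α : ℝ} {w : E3 → E3} {C : ℝ} (h : HolderLE k m α w C) : 0 ≤ C := by
  have h0 : (0 : E3) ∈ Pipe := by simp [Pipe]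
  exact (by positivity : (0:ℝ) ≤ _).trans (h.bound 0 (Nat.zero_le _) 0 h0)

theorem le_W_of {m : ℕ} (hm : 4 ≤ m) {x : E3} {a C : ℝ} (ha : 0 ≤ a) (h : (1 + x 2 ^ 2) ^ m * a ≤ C) :
    a ≤ C * W x := by
  have hz := one_le_z x
  have h4 : (1 + x 2 ^ 2) ^ 4 * a ≤ C := by
    refine le_trans ?_ h
    gcongr
  unfold W
  rw [← div_eq_mul_inv, le_div_iff₀ (by positivity)]
  linarith

theorem HolderLE.val_le {k m : ℕ} (hm : 4 ≤ m) {α : ℝ} {w : E3 → E3} {C : ℝ} (h : HolderLE k m α w C)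
    {x : E3} (hx : x ∈ Pipe) : ‖w x‖ ≤ C * W x := by
  apply le_W_of hm (norm_nonneg _)
  have := h.bound 0 (Nat.zero_le _) x hx
  rwa [norm_iteratedFDeriv_zero] at this

theorem HolderLE.diff {k m : ℕ} (hk : 1 ≤ k) {α : ℝ} {w : E3 → E3} {C : ℝ} (h : HolderLE k m α w C)
    {x : E3} (hx : x ∈ Pipe) : DifferentiableAt ℝ w x :=
  (h.smooth.contDiffAt (isOpen_pipe.mem_nhds hx)).differentiableAt (by
    have : (k : WithTop ℕ∞) ≠ 0 := by
      have : k ≠ 0 := by omega
      exact_mod_cast this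
    exact this)

theorem HolderLE.fderiv_le {k m : ℕ} (hk : 1 ≤ k) (hm : 4 ≤ m) {α : ℝ} {w : E3 → E3} {C : ℝ}
    (h : HolderLE k m α w C) {x : E3} (hx : x ∈ Pipe) : ‖fderiv ℝ w x‖ ≤ C * W x := by
  apply le_W_of hm (norm_nonneg _)
  have := h.bound 1 hk x hx
  rwa [norm_iteratedFDeriv_one] at this

theorem IsSolution.toSol {k m : ℕ} (hk : 1 ≤ k) (hm : 4 ≤ m) {α τ : ℝ} (hτ : 0 ≤ τ) {v : ℝ → E3 → E3}
    {p : ℝ → E3 → ℝ} (h : IsSolution k m α τ v p) :
    ∃ V Cw Cp : ℝ, Sol V Cw Cp τ v p ∧ ∀ t ∈ Icc 0 τ, HolderLE k m α (fun x => v t x - V • e 2) Cw := by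
  obtain ⟨V, Cw, hreg⟩ := h.regular
  obtain ⟨Cp, hp⟩ := h.pressure_le
  have h0 : (0 : E3) ∈ Pipe := by simp [Pipe]
  have hCw : 0 ≤ Cw := (hreg 0 (left_mem_Icc.2 hτ)).nonneg
  have hCp : 0 ≤ Cp := (norm_nonneg _).trans (hp 0 (left_mem_Icc.2 hτ) 0 h0)
  have hd : ∀ t ∈ Icc 0 τ, ∀ x ∈ Pipe, DifferentiableAt ℝ (v t) x := by
    intro t ht x hx
    have := ((hreg t ht).diff hk hx).add_const (V • e 2)
    simpa using this
  have hdb : ∀ t ∈ Icc 0 τ, ∀ x ∈ Pipe, ‖fderiv ℝ (v t) x‖ ≤ Cw * W x := by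
    intro t ht x hx
    have := (hreg t ht).fderiv_le hk hm hx
    rwa [fderiv_sub_const] at this
  refine ⟨V, Cw, Cp, ⟨hτ, hCw, hCp, hd, fun t ht x hx => (hreg t ht).val_le hm hx, hdb, h.div_free, ?_,
    h.pressure, ?_, h.euler⟩, hreg⟩
  · intro t ht x hx
    exact tang_bound hCw (hd t ht) (hdb t ht) (h.tangent t ht) hx
  · intro t ht x hx
    have := hp t ht x hx
    unfold gradient at this
    rwa [LinearIsometryEquiv.norm_map] at this

/-- the mean flow is determined by decay -/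
theorem mean_unique {c C : ℝ} (h : ∀ x ∈ Pipe, ‖c • e 2‖ ≤ C * W x) : c = 0 := by
  have h1 : ∀ z : ℝ, |c| ≤ C * ((1 + z ^ 2) ^ 4)⁻¹ := by
    intro z
    have hx : (z • e 2) ∈ Pipe := by simp [Pipe, e]
    have := h _ hx
    rw [norm_smul, norm_e, mul_one, Real.norm_eq_abs] at this
    have h2 : (z • e 2 : E3) 2 = z := by simp [e]
    unfold W at this
    rwa [h2] at this
  have h2 : Tendsto (fun z : ℝ => C * ((1 + z ^ 2) ^ 4)⁻¹) atTop (𝓝 (C * 0)) := by
    refine tendsto_const_nhds.mul ?_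
    refine tendsto_inv_atTop_zero.comp ?_
    refine (tendsto_pow_atTop (by norm_num)).comp ?_
    exact tendsto_atTop_add_const_left _ _ (tendsto_pow_atTop (by norm_num))
  rw [mul_zero] at h2
  have h3 : |c| ≤ 0 := ge_of_tendsto' h2 h1
  exact abs_eq_zero.1 (le_antisymm h3 (abs_nonneg _))


/-! ### the explicit wandering velocity -/

noncomputable def bump (x : E3) : ℝ := Real.smoothTransition (1 - 4 * ‖x‖ ^ 2)

noncomputable def w0 (x : E3) : E3 := bump x • rot x

noncomputable def v0 (x : E3) : E3 := e 2 + w0 x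

theorem bump_smooth : ContDiff ℝ (⊤ : ℕ∞) bump := by
  unfold bump
  exact Real.smoothTransition.contDiff.comp (contDiff_const.sub (contDiff_const.mul (contDiff_norm_sq ℝ)))

theorem w0_smooth : ContDiff ℝ (⊤ : ℕ∞) w0 := bump_smooth.smul rot.contDiff

theorem bump_zero {x : E3} (hx : 1 / 2 ≤ ‖x‖) : bump x = 0 := by
  unfold bump
  apply Real.smoothTransition.zero_of_nonpos
  nlinarith [norm_nonneg x]

theorem bump_nonneg (x : E3) : 0 ≤ bump x := Real.smoothTransition.nonneg _
theorem bump_le_one (x : E3) : bump x ≤ 1 := Real.smoothTransition.le_one _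

theorem w0_compact : HasCompactSupport w0 := by
  apply HasCompactSupport.intro (isCompact_closedBall (0 : E3) (1/2))
  intro x hx
  rw [mem_closedBall_zero_iff, not_le] at hx
  unfold w0
  rw [bump_zero hx.le, zero_smul]

theorem w0_deriv_zero (j : ℕ) {x : E3} (hx : 1 / 2 < ‖x‖) : iteratedFDeriv ℝ j w0 x = 0 := by
  have h1 : w0 =ᶠ[𝓝 x] 0 := by
    filter_upwards [(continuous_norm.continuousAt (x := x)).eventually (lt_mem_nhds hx)] with y hy
    simp [w0, bump_zero hy.le]
  have h2 := h1.iteratedFDeriv ℝ j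
  rw [h2.eq_of_nhds]
  simp

theorem w0_bound (m j : ℕ) : ∃ C, 0 ≤ C ∧ ∀ x : E3, (1 + x 2 ^ 2) ^ m * ‖iteratedFDeriv ℝ j w0 x‖ ≤ C := by
  have hc : Continuous (fun x : E3 => (1 + x 2 ^ 2) ^ m * ‖iteratedFDeriv ℝ j w0 x‖) := by
    refine Continuous.mul (by fun_prop) ?_
    exact (w0_smooth.continuous_iteratedFDeriv (by exact_mod_cast le_top)).norm
  obtain ⟨C, hC⟩ := (isCompact_closedBall (0 : E3) 1).exists_bound_of_continuousOn hc.continuousOn
  refine ⟨max C 0, le_max_right _ _, fun x => ?_⟩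
  by_cases hx : ‖x‖ ≤ 1
  · have := hC x (mem_closedBall_zero_iff.2 hx)
    rw [Real.norm_eq_abs] at this
    exact (le_abs_self _).trans (this.trans (le_max_left _ _))
  · rw [w0_deriv_zero j (by linarith)]
    simp

theorem w0_lip (k : ℕ) : ∃ L, 0 ≤ L ∧ ∀ x y : E3,
    ‖iteratedFDeriv ℝ k w0 x - iteratedFDeriv ℝ k w0 y‖ ≤ L * dist x y := by
  obtain ⟨L, hL0, hL⟩ := w0_bound 0 (k + 1)
  refine ⟨L, hL0, fun x y => ?_⟩
  have hd : Differentiable ℝ (iteratedFDeriv ℝ k w0) :=
    w0_smooth.differentiable_iteratedFDeriv (by exact_mod_cast WithTop.coe_lt_top k)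
  have := (convex_univ (𝕜 := ℝ) (E := E3)).norm_image_sub_le_of_norm_fderiv_le (f := iteratedFDeriv ℝ k w0)
    (C := L) (fun x _ => hd x) (fun x _ => by
      have h1 := hL x
      rw [pow_zero, one_mul, ← norm_fderiv_iteratedFDeriv] at h1
      exact h1) (mem_univ y) (mem_univ x)
  rw [dist_eq_norm]
  exact this

theorem w0_holder (k m : ℕ) (α : ℝ) (hα0 : 0 < α) (hα1 : α ≤ 1) : ∃ C, HolderLE k m α w0 C := by
  choose Cj hCj0 hCj using w0_bound m
  obtain ⟨L, hL0, hL⟩ := w0_lip k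
  refine ⟨∑ j ∈ Finset.range (k + 1), Cj j + 5 ^ m * L, ⟨?_, ?_, ?_⟩⟩
  · exact (w0_smooth.of_le (by exact_mod_cast le_top)).contDiffOn
  · intro j hj x _
    refine (hCj j x).trans ?_
    have h1 : Cj j ≤ ∑ j ∈ Finset.range (k + 1), Cj j :=
      Finset.single_le_sum (fun i _ => hCj0 i) (Finset.mem_range.2 (by omega))
    have h2 : 0 ≤ 5 ^ m * L := by positivity
    linarith
  · intro x _ y _ hxy
    have hS : 0 ≤ ∑ j ∈ Finset.range (k + 1), Cj j := Finset.sum_nonneg fun i _ => hCj0 i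
    have hd : dist x y ≤ dist x y ^ α := by
      rcases eq_or_lt_of_le (dist_nonneg (x := x) (y := y)) with h | h
      · rw [← h, Real.zero_rpow hα0.ne']
      · calc dist x y = dist x y ^ (1:ℝ) := (Real.rpow_one _).symm
          _ ≤ dist x y ^ α := Real.rpow_le_rpow_of_exponent_ge h hxy hα1
    have hdn : 0 ≤ dist x y ^ α := Real.rpow_nonneg dist_nonneg _
    by_cases hx : ‖x‖ ≤ 2
    · have hx2 : x 2 ^ 2 ≤ 4 := by
        have := norm_sq_eq x
        nlinarith [sq_nonneg (x 0), sq_nonneg (x 1), norm_nonneg x]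
      calc (1 + x 2 ^ 2) ^ m * ‖iteratedFDeriv ℝ k w0 x - iteratedFDeriv ℝ k w0 y‖
          ≤ 5 ^ m * (L * dist x y ^ α) := by
            have h1 := hL x y
            have h2 : 1 + x 2 ^ 2 ≤ 5 := by linarith
            have h3 : L * dist x y ≤ L * dist x y ^ α := by gcongr
            have h4 := h1.trans h3
            gcongr
        _ = (5 ^ m * L) * dist x y ^ α := by ring
        _ ≤ _ := by
          have : 0 ≤ (∑ j ∈ Finset.range (k + 1), Cj j) * dist x y ^ α := by positivity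
          nlinarith
    · push Not at hx
      have hy : 1 / 2 < ‖y‖ := by
        have h1 : ‖x‖ ≤ ‖y‖ + dist x y := by
          rw [dist_eq_norm]
          have := norm_add_le y (x - y)
          simpa using this
        linarith
      rw [w0_deriv_zero k (by linarith), w0_deriv_zero k hy]
      simp
      positivity

theorem v0_sub (x : E3) : v0 x - (1 : ℝ) • e 2 = w0 x := by simp [v0]

theorem fderiv_normsq_rot (x : E3) : fderiv ℝ (fun y : E3 => ‖y‖ ^ 2) x (rot x) = 0 := by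
  have h : HasFDerivAt (fun y : E3 => ‖y‖ ^ 2) (2 • (innerSL ℝ x).comp (ContinuousLinearMap.id ℝ E3)) x :=
    (hasFDerivAt_id x).norm_sq
  rw [h.fderiv]
  have : inner ℝ x (rot x) = 0 := by
    rw [PiLp.inner_apply, Fin.sum_univ_three, rot_0, rot_1, rot_2]
    simp
    ring
  simp [this]

theorem fderiv_bump_rot (x : E3) : fderiv ℝ bump x (rot x) = 0 := by
  have h1 : DifferentiableAt ℝ (fun y : E3 => ‖y‖ ^ 2) x := (contDiff_norm_sq ℝ (n := 1)).contDiffAt.differentiableAt (by simp)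
  have h2 : HasFDerivAt (fun y : E3 => 1 - 4 * ‖y‖ ^ 2) (-((4:ℝ) • fderiv ℝ (fun y : E3 => ‖y‖ ^ 2) x)) x :=
    (h1.hasFDerivAt.const_mul 4).const_sub 1
  have h3 : DifferentiableAt ℝ Real.smoothTransition (1 - 4 * ‖x‖ ^ 2) :=
    (Real.smoothTransition.contDiff (n := 1)).contDiffAt.differentiableAt (by simp)
  have h4 := (h3.hasDerivAt.comp_hasFDerivAt x h2).fderiv
  have h5 : fderiv ℝ bump x = deriv Real.smoothTransition (1 - 4 * ‖x‖ ^ 2) •
      (-((4:ℝ) • fderiv ℝ (fun y : E3 => ‖y‖ ^ 2) x)) := h4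
  rw [h5, smul_apply, neg_apply, smul_apply, fderiv_normsq_rot]
  simp

theorem v0_mem (k m : ℕ) (α : ℝ) (hα0 : 0 < α) (hα1 : α ≤ 1) : v0 ∈ PhaseSpace k m α := by
  refine ⟨?_, ?_, ?_⟩
  · obtain ⟨C, hC⟩ := w0_holder k m α hα0 hα1
    refine ⟨1, C, ?_⟩
    simp only [v0_sub]
    exact hC
  · intro x _
    have h1 : divergence v0 x = divergence w0 x := by
      unfold divergence
      have : fderiv ℝ v0 x = fderiv ℝ w0 x := fderiv_const_add _
      rw [this]
    rw [h1]
    have hb : DifferentiableAt ℝ bump x := (bump_smooth.differentiable (by simp)) x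
    have := divergence_smul hb rot.differentiableAt (x := x) (u := rot)
    rw [divergence_rot, fderiv_bump_rot] at this
    change divergence (fun y => bump y • rot y) x = 0
    simpa using this
  · intro b hb
    have hc : Continuous (fun x => b 0 * v0 x 0 + b 1 * v0 x 1) := by
      have h0 : Continuous v0 := continuous_const.add w0_smooth.continuous
      fun_prop
    have h2 : b 0 * v0 b 0 + b 1 * v0 b 1 = 0 := by
      have a0 : v0 b 0 = bump b * (- b 1) := by simp [v0, w0, e, rot_0]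
      have a1 : v0 b 1 = bump b * b 0 := by simp [v0, w0, e, rot_1]
      rw [a0, a1]; ring
    have := hc.tendsto b
    simp only [h2] at this
    exact this.mono_left nhdsWithin_le_nhds

theorem ell_v0 (x : E3) : ell v0 x = bump x * (x 0 ^ 2 + x 1 ^ 2) := by
  have a0 : v0 x 0 = bump x * (- x 1) := by simp [v0, w0, e, rot_0]
  have a1 : v0 x 1 = bump x * x 0 := by simp [v0, w0, e, rot_1]
  unfold ell
  rw [a0, a1]; ring

theorem pos0 : 0 < (∫ x in Pipe, ell v0 x) - (∫ x in Pipe, ‖v0 x - (1:ℝ) • e 2‖ ^ 2) / 2 := by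
  have hc : Continuous (fun x : E3 => bump x * (x 0 ^ 2 + x 1 ^ 2)) :=
    bump_smooth.continuous.mul (by fun_prop)
  have hcs : HasCompactSupport (fun x : E3 => bump x * (x 0 ^ 2 + x 1 ^ 2)) := by
    apply HasCompactSupport.intro (isCompact_closedBall (0 : E3) (1/2))
    intro x hx
    rw [mem_closedBall_zero_iff, not_le] at hx
    rw [bump_zero hx.le, zero_mul]
  have hE : ∫ x in Pipe, ‖v0 x - (1:ℝ) • e 2‖ ^ 2 ≤ ∫ x in Pipe, ell v0 x := by
    apply setIntegral_mono_on _ _ measurable_pipe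
    · intro x hx
      rw [v0_sub, ell_v0, w0, norm_smul, mul_pow, norm_sq_eq, rot_0, rot_1, rot_2, Real.norm_eq_abs, sq_abs]
      have h1 := bump_nonneg x
      have h2 := bump_le_one x
      have h3 : bump x ^ 2 ≤ bump x := by nlinarith
      have h4 : 0 ≤ x 0 ^ 2 + x 1 ^ 2 := by positivity
      nlinarith
    · simp only [v0_sub]
      have h1 : Continuous (fun x => ‖w0 x‖ ^ 2) := (w0_smooth.continuous.norm).pow 2
      have h2 : HasCompactSupport (fun x => ‖w0 x‖ ^ 2) := by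
        apply HasCompactSupport.intro (isCompact_closedBall (0 : E3) (1/2))
        intro x hx
        rw [mem_closedBall_zero_iff, not_le] at hx
        rw [w0, bump_zero hx.le, zero_smul]
        simp
      exact (h1.integrable_of_hasCompactSupport h2).integrableOn
    · simp only [funext ell_v0]
      exact (hc.integrable_of_hasCompactSupport hcs).integrableOn
  have hL : 0 < ∫ x in Pipe, ell v0 x := by
    simp only [ell_v0]
    rw [setIntegral_eq_integral_of_forall_compl_eq_zero]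
    · apply hc.integral_pos_of_hasCompactSupport_nonneg_nonzero hcs (x := (1/4 : ℝ) • e 0)
      · intro x
        exact mul_nonneg (bump_nonneg x) (by positivity)
      · have h1 : ((1/4 : ℝ) • e 0 : E3) 0 = 1/4 := by simp [e]
        have h2 : ((1/4 : ℝ) • e 0 : E3) 1 = 0 := by simp [e]
        rw [h1, h2]
        have h3 : 0 < bump ((1/4 : ℝ) • e 0) := by
          unfold bump
          apply Real.smoothTransition.pos_of_pos
          rw [norm_smul, norm_e]
          norm_num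
        have h4 : bump ((1/4 : ℝ) • e 0) * ((1/4 : ℝ) ^ 2 + 0 ^ 2) ≠ 0 := by positivity
        exact h4
    · intro x hx
      have : 1 / 2 ≤ ‖x‖ := by
        have h1 : ¬ (x 0 ^ 2 + x 1 ^ 2 < 1) := hx
        have h2 := norm_sq_eq x
        nlinarith [norm_nonneg x, sq_nonneg (x 2)]
      rw [bump_zero this, zero_mul]
  linarith


theorem wandering_v0 (k m : ℕ) (α : ℝ) (hk : 1 ≤ k) (hm : 4 ≤ m) (hα0 : 0 < α) (hα1 : α ≤ 1) :
    IsWandering k m α v0 := by
  obtain ⟨C0, hC0⟩ := w0_holder k m α hα0 hα1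
  have hC0n := hC0.nonneg
  have hI := ID_nonneg
  set L0 := ∫ x in Pipe, ell v0 x with hL0
  set E0 := ∫ x in Pipe, ‖v0 x - (1:ℝ) • e 2‖ ^ 2 with hE0
  have hpos := pos0
  rw [← hL0, ← hE0] at hpos
  set c := L0 - E0 / 2 with hc
  set K := |L0| + 2 * ID + (2 * C0 + 1) * ID with hK
  have hKn : 0 ≤ K := by positivity
  refine ⟨min 1 (c / (2 * (K + 1))), by positivity, 4 * ID / c + 1, by positivity, ?_⟩
  intro t ht
  rw [Set.eq_empty_iff_forall_notMem]
  rintro u ⟨⟨v, p, hsol, hv0, rfl⟩, hu⟩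
  set ε := min 1 (c / (2 * (K + 1))) with hε
  have hε1 : ε ≤ 1 := min_le_left _ _
  have hε0 : 0 < ε := by positivity
  have hε2 : K * ε ≤ c / 2 := by
    calc K * ε ≤ K * (c / (2 * (K + 1))) := by gcongr; exact min_le_right _ _
      _ ≤ c / 2 := by
        rw [mul_div_assoc', div_le_div_iff₀ (by positivity) (by positivity)]
        nlinarith
  have ht0 : 0 ≤ t := by
    have : 0 < 4 * ID / c + 1 := by positivity
    linarith
  obtain ⟨V, Cw, Cp, hS, hreg⟩ := hsol.toSol hk hm ht0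
  -- general facts about an element of the ball with mean flow V
  have hgen : ∀ s ∈ Icc 0 t, v s ∈ Ball k m α v0 ε → ∃ C, |V - 1| + C < ε ∧ 0 ≤ C ∧
      ∀ x ∈ Pipe, ‖v s x - V • e 2 - w0 x‖ ≤ C * W x := by
    rintro s hs ⟨-, V', C', hVC, hC'⟩
    have hC'n := hC'.nonneg
    have hVe : V - 1 - V' = 0 := by
      apply mean_unique (C := Cw + C' + C0)
      intro x hx
      have h1 := hS.vb s hs x hx
      have h2 := hC'.val_le hm hx
      have h3 := hC0.val_le hm hx
      have he : (V - 1 - V') • e 2 = (v s x - v0 x - V' • e 2) - (v s x - V • e 2) + w0 x := by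
        rw [← v0_sub]
        module
      rw [he]
      calc _ ≤ ‖v s x - v0 x - V' • e 2‖ + ‖v s x - V • e 2‖ + ‖w0 x‖ :=
            (norm_add_le _ _).trans (add_le_add_left (norm_sub_le _ _) _)
        _ ≤ C' * W x + Cw * W x + C0 * W x := by gcongr
        _ = _ := by ring
    have hVe' : V' = V - 1 := by linarith
    subst hVe'
    refine ⟨C', hVC, hC'n, fun x hx => ?_⟩
    have h2 := hC'.val_le hm hx
    have he : v s x - V • e 2 - w0 x = v s x - v0 x - (V - 1) • e 2 := by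
      rw [← v0_sub]
      module
    rw [he]
    exact h2
  have h0mem : (0:ℝ) ∈ Icc 0 t := left_mem_Icc.2 ht0
  have htmem : t ∈ Icc 0 t := right_mem_Icc.2 ht0
  obtain ⟨Ca, hVa, hCa0, ha⟩ := hgen 0 h0mem hv0
  obtain ⟨Cb, hVb, hCb0, hb⟩ := hgen t htmem hu
  have hVn := abs_nonneg (V - 1)
  -- pointwise comparison of the angular momentum densities
  have hellc : ∀ s ∈ Icc 0 t, ∀ C, (∀ x ∈ Pipe, ‖v s x - V • e 2 - w0 x‖ ≤ C * W x) →
      ∀ x ∈ Pipe, |ell (v s) x - ell v0 x| ≤ C * W x := by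
    intro s hs C hC x hx
    have h1 : ell (v s) x - ell v0 x = ell (fun y => v s y - v0 y) x := by
      unfold ell
      simp
      ring
    rw [h1]
    refine (abs_ell_le (V - 1) hx).trans ?_
    refine le_of_eq_of_le ?_ (hC x hx)
    congr 1
    rw [← v0_sub]
    module
  have hiv0 : ∀ {χ : ℝ → ℝ}, Continuous χ → (∀ z, |χ z| ≤ 1 * (1 + z ^ 2)) →
      IntegrableOn (fun x => χ (x 2) * ell v0 x) Pipe := by
    intro χ hχ hb
    apply integrableOn_of_bound (C := C0)
    · have m1 : Continuous (fun x : E3 => χ (x 2)) := hχ.comp (by fun_prop)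
      have m2 : Continuous (ell v0) := by
        simp only [funext ell_v0]
        exact bump_smooth.continuous.mul (by fun_prop)
      exact (m1.mul m2).aestronglyMeasurable
    · intro x hx
      have hW := W_pos x
      rw [abs_mul]
      have h1 := hb (x 2)
      have h2 : |ell v0 x| ≤ C0 * W x := by
        refine (abs_ell_le 1 hx).trans ?_
        rw [v0_sub]
        exact hC0.val_le hm hx
      calc |χ (x 2)| * |ell v0 x| ≤ (1 * (1 + x 2 ^ 2)) * (C0 * W x) := by gcongr
        _ = C0 * ((1 + x 2 ^ 2) * W x) := by ring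
        _ ≤ _ := by have := z1_mul_W_le x; gcongr
  have hone : ∀ z : ℝ, |(1:ℝ)| ≤ 1 * (1 + z ^ 2) := fun z => by rw [abs_one]; nlinarith [sq_nonneg z]
  have hid : ∀ z : ℝ, |z| ≤ 1 * (1 + z ^ 2) := fun z => by
    nlinarith [sq_abs z, sq_nonneg (|z| - 1), abs_nonneg z]
  -- the three functionals
  have hLa : |(∫ x in Pipe, ell (v 0) x) - L0| ≤ Ca * ID := by
    have i1 : IntegrableOn (ell (v 0)) Pipe := by
      simpa using hS.ell_int h0mem (χ := fun _ => 1) continuous_const hone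
    have i2 : IntegrableOn (ell v0) Pipe := by
      simpa using hiv0 (χ := fun _ => 1) continuous_const hone
    rw [hL0, ← integral_sub i1 i2]
    apply abs_integral_le
    intro x hx
    exact (hellc 0 h0mem Ca ha x hx).trans (by have := W_le_D x; gcongr)
  have hG : ∀ s ∈ Icc 0 t, ∀ C, 0 ≤ C → (∀ x ∈ Pipe, ‖v s x - V • e 2 - w0 x‖ ≤ C * W x) →
      |(∫ x in Pipe, x 2 * ell (v s) x) - ∫ x in Pipe, x 2 * ell v0 x| ≤ C * ID := by
    intro s hs C hCn hC
    have i1 : IntegrableOn (fun x => x 2 * ell (v s) x) Pipe :=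
      hS.ell_int hs (χ := fun z => z) continuous_id hid
    have i2 : IntegrableOn (fun x => x 2 * ell v0 x) Pipe := hiv0 (χ := fun z => z) continuous_id hid
    rw [← integral_sub i1 i2]
    apply abs_integral_le
    intro x hx
    have h1 := hellc s hs C hC x hx
    have h2 := abs_z_mul_W_le x
    rw [← mul_sub, abs_mul]
    calc |x 2| * |ell (v s) x - ell v0 x| ≤ |x 2| * (C * W x) := by gcongr
      _ = C * (|x 2| * W x) := by ring
      _ ≤ _ := by gcongr
  have hEa : (∫ x in Pipe, ‖v 0 x - V • e 2‖ ^ 2) ≤ E0 + Ca * (2 * C0 + Ca) * ID := by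
    have i1 : IntegrableOn (fun x => ‖v 0 x - V • e 2‖ ^ 2) Pipe := by
      apply integrableOn_of_bound (C := Cw ^ 2)
      · exact aesm_of_diff fun x hx => ((hS.vd 0 h0mem x hx).sub_const _).norm_sq ℝ
      · intro x hx
        have hW := W_pos x
        have hWD := W_le_D x
        have hW1 := W_le_one x
        have h1 := hS.vb 0 h0mem x hx
        rw [abs_of_nonneg (sq_nonneg _)]
        calc ‖v 0 x - V • e 2‖ ^ 2 ≤ (Cw * W x) ^ 2 := by gcongr
          _ = Cw ^ 2 * (W x * W x) := by ring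
          _ ≤ Cw ^ 2 * (D x * 1) := by have := D_pos x; gcongr
          _ = _ := by ring
    have i2 : IntegrableOn (fun x => ‖v0 x - (1:ℝ) • e 2‖ ^ 2) Pipe := by
      simp only [v0_sub]
      have h1 : Continuous (fun x => ‖w0 x‖ ^ 2) := (w0_smooth.continuous.norm).pow 2
      have h2 : HasCompactSupport (fun x => ‖w0 x‖ ^ 2) := by
        apply HasCompactSupport.intro (isCompact_closedBall (0 : E3) (1/2))
        intro x hx
        rw [mem_closedBall_zero_iff, not_le] at hx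
        rw [w0, bump_zero hx.le, zero_smul]
        simp
      exact (h1.integrable_of_hasCompactSupport h2).integrableOn
    have h1 : (∫ x in Pipe, ‖v 0 x - V • e 2‖ ^ 2) - E0 ≤ Ca * (2 * C0 + Ca) * ID := by
      rw [hE0, ← integral_sub i1 i2]
      refine (le_abs_self _).trans (abs_integral_le ?_)
      intro x hx
      have hW := W_pos x
      have hWD := W_le_D x
      have hW1 := W_le_one x
      have hd := ha x hx
      have hw := hC0.val_le hm hx
      rw [v0_sub]
      have hn : ‖v 0 x - V • e 2‖ ≤ ‖w0 x‖ + Ca * W x := by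
        have : v 0 x - V • e 2 = w0 x + (v 0 x - V • e 2 - w0 x) := by abel
        rw [this]
        exact (norm_add_le _ _).trans (by gcongr)
      have hdd : |‖v 0 x - V • e 2‖ - ‖w0 x‖| ≤ Ca * W x := (abs_norm_sub_norm_le _ _).trans hd
      have : ‖v 0 x - V • e 2‖ ^ 2 - ‖w0 x‖ ^ 2
          = (‖v 0 x - V • e 2‖ - ‖w0 x‖) * (‖v 0 x - V • e 2‖ + ‖w0 x‖) := by ring
      rw [this, abs_mul, abs_of_nonneg (by positivity : 0 ≤ ‖v 0 x - V • e 2‖ + ‖w0 x‖)]
      calc |‖v 0 x - V • e 2‖ - ‖w0 x‖| * (‖v 0 x - V • e 2‖ + ‖w0 x‖)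
          ≤ (Ca * W x) * ((C0 * W x + Ca * W x) + C0 * W x) := by
            gcongr
            exact hn.trans (by gcongr)
        _ = Ca * (2 * C0 + Ca) * (W x * W x) := by ring
        _ ≤ Ca * (2 * C0 + Ca) * (D x * 1) := by have := D_pos x; gcongr
        _ = _ := by ring
    linarith
  -- conclusion
  have hclock := hS.clock
  have hGa := hG 0 h0mem Ca hCa0 ha
  have hGb := hG t htmem Cb hCb0 hb
  have hCa1 : Ca ≤ ε := by linarith
  have hCb1 : Cb ≤ ε := by linarith
  have hVε : |V - 1| ≤ ε := by linarith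
  set La := ∫ x in Pipe, ell (v 0) x with hLa'
  set Ea := ∫ x in Pipe, ‖v 0 x - V • e 2‖ ^ 2 with hEa'
  have hrate : c / 2 ≤ V * La - Ea / 2 := by
    have h1 : |La - L0| ≤ ε * ID := hLa.trans (by gcongr)
    have h2 : Ea ≤ E0 + ε * (2 * C0 + 1) * ID := by
      refine hEa.trans ?_
      have : Ca * (2 * C0 + Ca) * ID ≤ ε * (2 * C0 + 1) * ID := by
        gcongr
        linarith
      linarith
    have h3 : |La| ≤ |L0| + ε * ID := by
      have : La = L0 + (La - L0) := by ring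
      rw [this]
      exact (abs_add_le _ _).trans (by gcongr)
    have h4 : |(V - 1) * La| ≤ ε * (|L0| + ID) := by
      rw [abs_mul]
      calc |V - 1| * |La| ≤ ε * (|L0| + ε * ID) := by gcongr
        _ ≤ ε * (|L0| + 1 * ID) := by gcongr
        _ = _ := by ring
    have h5 : V * La = L0 + (La - L0) + (V - 1) * La := by ring
    have h6 := (abs_le.1 h4).1
    have h7 := (abs_le.1 h1).1
    have h8 : K * ε = ε * |L0| + 2 * ε * ID + ε * (2 * C0 + 1) * ID := by rw [hK]; ring
    have h9 : 0 ≤ ε * (2 * C0 + 1) * ID := by positivity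
    rw [h5, hc]
    rw [hc] at hε2
    linarith
  have hdiff : (∫ x in Pipe, x 2 * ell (v t) x) - ∫ x in Pipe, x 2 * ell (v 0) x ≤ 2 * ID := by
    have h1 := (abs_le.1 hGa).1
    have h2 := (abs_le.1 hGb).2
    have h3 : Ca * ID ≤ 1 * ID := by gcongr; linarith
    have h4 : Cb * ID ≤ 1 * ID := by gcongr; linarith
    linarith
  have h10 : c / 2 * t ≤ 2 * ID := by
    calc c / 2 * t ≤ (V * La - Ea / 2) * t := by gcongr
      _ ≤ _ := hclock
      _ ≤ _ := hdiff
  have h11 : c / 2 * (4 * ID / c + 1) ≤ c / 2 * t := by gcongr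
  have h12 : c / 2 * (4 * ID / c + 1) = 2 * ID + c / 2 := by field_simp; ring
  linarith

/-! ### Sanity checks: the uniform flow is a solution on every time interval and is not wandering -/

theorem holderLE_zero (k m : ℕ) (α : ℝ) : HolderLE k m α (fun _ => 0) 0 := by
  refine ⟨contDiffOn_const, ?_, ?_⟩
  · intro j _ x _
    have : iteratedFDeriv ℝ j (fun _ : E3 => (0 : E3)) x = 0 := by simp
    rw [this]; simp
  · intro x _ y _ _
    have h : ∀ z, iteratedFDeriv ℝ k (fun _ : E3 => (0 : E3)) z = 0 := by intro z; simp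
    rw [h, h]; simp

theorem uniform_isSolution (k m : ℕ) (α τ : ℝ) :
    IsSolution k m α τ (fun _ _ => e 2) (fun _ _ => 0) := by
  refine ⟨⟨1, 0, fun t _ => ?_⟩, ?_, ?_, ?_, ⟨0, ?_⟩, ?_⟩
  · simpa using holderLE_zero k m α
  · intro t _ x _; simp [divergence]
  · intro t _ b _
    simp only [e]
    simpa using tendsto_const_nhds
  · intro t _ x _; exact differentiableAt_const _
  · intro t _ x _; simp [gradient]
  · intro t _ x _
    simpa [gradient] using hasDerivWithinAt_const t (Icc 0 τ) (e 2)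

theorem uniform_not_wandering (k m : ℕ) (α : ℝ) : ¬ IsWandering k m α (fun _ => e 2) := by
  rintro ⟨ε, hε, T, hT, h⟩
  have hb : (fun _ => e 2) ∈ Ball k m α (fun _ => e 2) ε := by
    have hs := uniform_isSolution k m α 0
    refine ⟨⟨⟨1, 0, ?_⟩, hs.div_free 0 (by simp), hs.tangent 0 (by simp)⟩, 0, 0, by simpa using hε, ?_⟩
    · simpa using holderLE_zero k m α
    · simpa using holderLE_zero k m α
  have : (fun _ => e 2) ∈ timeImage k m α T (Ball k m α (fun _ => e 2) ε) ∩ Ball k m α (fun _ => e 2) ε :=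
    ⟨⟨fun _ _ => e 2, fun _ _ => 0, uniform_isSolution k m α T, hb, rfl⟩, hb⟩
  rw [h T le_rfl] at this
  exact this

/-- There is an initial velocity in the infinite circular pipe which is wandering for the
three-dimensional Euler equations, in every weighted Hölder phase space `X = PhaseSpace k m α`. -/
theorem result : ∃ u₀ : E3 → E3, ∀ (k m : ℕ) (α : ℝ), 1 ≤ k → 4 ≤ m → 0 < α → α < 1 →
    u₀ ∈ PhaseSpace k m α ∧ IsWandering k m α u₀ :=
  ⟨v0, fun k m α hk hm h0 h1 => ⟨v0_mem k m α h0 h1.le, wandering_v0 k m α hk hm h0 h1.le⟩⟩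

end Pool.Agent.Results.MP_beb0a8_an.PipeWandering
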